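import Pool.Agent.Helper81.P13.Wx

/-!
# Project P13: the certificates of `V`, row 3, columns 2 and 3
-/

set_option autoImplicit false
set_option maxRecDepth 100000

namespace Pool.Agent.Helper81.P13

open Pool.Agent.Helper84.P13 Pool.Agent.Helper28.P13

private theorem t2 : fastE (bX VW (mVM 3) 3 2) (fun w a k j => if (3 : Fin 4) = 2 ∧ w = 0 then
    (if (a, k, j) = (1, 0, 13) ∨ (a, k, j) = (13, 0, 1) ∨ (a, k, j) = (7, 0, 7) then 1 else 0) else 0) = true := by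
  decide +kernel

private theorem t3 : fastE (bX VW (mVM 3) 3 3) (fun w a k j => if (3 : Fin 4) = 3 ∧ w = 0 then
    (if (a, k, j) = (1, 0, 13) ∨ (a, k, j) = (13, 0, 1) ∨ (a, k, j) = (7, 0, 7) then 1 else 0) else 0) = true := by
  decide +kernel

theorem ceV32 : ∀ w : Fin 12, ∀ t ∈ M15, (13 : ℤ) ∣ cS (BVM 3 2) w t.1 t.2.1 t.2.2 -
    (if (3 : Fin 4) = 2 ∧ w = 0 then (if t = (1, 0, 13) ∨ t = (13, 0, 1) ∨ t = (7, 0, 7) then 1 else 0) else 0) := by
  unfold BVM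
  rw [← bX_toL]
  exact cS_fastE _ _ t2

/-- The terms of the entry are good. -/
theorem gdV32 : ∀ t ∈ BVM 3 2, Gd t := by
  unfold BVM
  rw [← bX_toL]
  exact fastE_gd _ _ t2

theorem ceV33 : ∀ w : Fin 12, ∀ t ∈ M15, (13 : ℤ) ∣ cS (BVM 3 3) w t.1 t.2.1 t.2.2 -
    (if (3 : Fin 4) = 3 ∧ w = 0 then (if t = (1, 0, 13) ∨ t = (13, 0, 1) ∨ t = (7, 0, 7) then 1 else 0) else 0) := by
  unfold BVM
  rw [← bX_toL]
  exact cS_fastE _ _ t3

/-- The terms of the entry are good. -/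
theorem gdV33 : ∀ t ∈ BVM 3 3, Gd t := by
  unfold BVM
  rw [← bX_toL]
  exact fastE_gd _ _ t3

end Pool.Agent.Helper81.P13
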