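import Pool.Agent.Helper81.P13.M_CeV0a
import Pool.Agent.Helper81.P13.M_CeV0b
import Pool.Agent.Helper81.P13.M_CeV1a
import Pool.Agent.Helper81.P13.M_CeV1b
import Pool.Agent.Helper81.P13.M_CeV2a
import Pool.Agent.Helper81.P13.M_CeV2b
import Pool.Agent.Helper81.P13.M_CeV3a
import Pool.Agent.Helper81.P13.M_CeV3b

/-!
# Project P13: the certificates of `V`
-/

set_option autoImplicit false

namespace Pool.Agent.Helper81.P13

open Pool.Agent.Helper84.P13 Pool.Agent.Helper28.P13

/-- The certificates of `V`: the array of every entry in weight at most `14`. -/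
theorem ceV (i f : Fin 4) : ∀ w : Fin 12, ∀ t ∈ M15, (13 : ℤ) ∣ cS (BVM i f) w t.1 t.2.1 t.2.2 -
    (if i = f ∧ w = 0 then (if t = (1, 0, 13) ∨ t = (13, 0, 1) ∨ t = (7, 0, 7) then 1 else 0) else 0) := by
  fin_cases i <;> fin_cases f
  · exact ceV00
  · exact ceV01
  · exact ceV02
  · exact ceV03
  · exact ceV10
  · exact ceV11
  · exact ceV12
  · exact ceV13
  · exact ceV20
  · exact ceV21
  · exact ceV22
  · exact ceV23
  · exact ceV30
  · exact ceV31
  · exact ceV32
  · exact ceV33

/-- The terms of every entry are good. -/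
theorem gdV (i f : Fin 4) : ∀ t ∈ BVM i f, Gd t := by
  fin_cases i <;> fin_cases f
  · exact gdV00
  · exact gdV01
  · exact gdV02
  · exact gdV03
  · exact gdV10
  · exact gdV11
  · exact gdV12
  · exact gdV13
  · exact gdV20
  · exact gdV21
  · exact gdV22
  · exact gdV23
  · exact gdV30
  · exact gdV31
  · exact gdV32
  · exact gdV33

end Pool.Agent.Helper81.P13
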