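import Pool.Agent.Helper76.P13.StD
import Pool.Agent.Helper81.P13.M_CeV

/-!
# Project P13: module CEV
-/

set_option autoImplicit false

namespace Pool.Agent.Helper81.P13

open Pool.Agent.Helper76.P13D

/-- CEV. The coefficients of `V` of weight at most `14`. -/
theorem hCeV : TCeV := by
  intro i f w t ht
  have h := ceV i f w t ht
  have e : (if t = (1, 0, 13) ∨ t = (7, 0, 7) ∨ t = (13, 0, 1) then (1 : ℤ) else 0) =
      (if t = (1, 0, 13) ∨ t = (13, 0, 1) ∨ t = (7, 0, 7) then (1 : ℤ) else 0) :=
    if_congr (by tauto) rfl rfl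
  rw [e]
  exact h

end Pool.Agent.Helper81.P13
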