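import Pool.Agent.Helper84.P13.StD1

/-!
# Project P13: a fast kernel check for the coefficient sums `cS`, for list expressions with products

A term has a code (`cd`): `K + 16 w + 16^2 m + 16^3 g + 2^20 b` with `K` modulo 13 and `w, m, g, b` the exponents of its normal form. The code of a product of two terms is a polynomial function (`comb`) of the codes, so no integer
arithmetic is needed. The sums are packed in one number: `∑_t K(t) G(g) (1 + m X^225) Z(b) X^(450 w)`, `X = 2^32`, `G(g) = ∑_(i<15) C(g,i) X^i`, `Z(b) = ∑_(j<15) C(b,j) X^(15 j)` (binomials modulo 13).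
-/

set_option autoImplicit false
set_option exponentiation.threshold 200000

namespace Pool.Agent.Helper81.P13

open Pool.Agent.Helper84.P13

/-- Evaluates the natural number before the function is applied. -/
noncomputable def sq {α : Type} (n : ℕ) (f : ℕ → α) : α :=
  @Nat.rec (fun _ => α) (f 0) (fun k _ => f (Nat.succ k)) n

theorem sq_eq {α : Type} (n : ℕ) (f : ℕ → α) : sq n f = f n := by
  cases n <;> rfl

/-- Residue modulo `169`. -/
noncomputable def rd (z : ℤ) : ℕ :=
  @Int.rec (fun _ => ℕ) (fun n => Nat.mod n 169) (fun n => Nat.sub 168 (Nat.mod n 169)) z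

/-- Residue modulo `13`. -/
noncomputable def rk (z : ℤ) : ℕ :=
  @Int.rec (fun _ => ℕ) (fun n => Nat.mod n 13) (fun n => Nat.sub 12 (Nat.mod n 13)) z

/-- The digit base. -/
def X1 : ℕ := 4294967296
def X15 : ℕ := Nat.pow X1 15
def X225 : ℕ := Nat.pow X1 225
def X450 : ℕ := Nat.pow X1 450

def TG : ℕ := 832316304262637415507295585354952515008555664698802188224114421839129508428845418275578676276688892715768763423139070034594068450509717068208122337835136341961532136740724936376110143371101769454075745278553337864954808552226325640654724064072009090380542103573346118277275304275446870297712293599567865274865149681138026455238269695778307292740825156350944502913259313185323518410637442811261034346087012077792517091100743070452015733405240350054164291266620950543348727489571177450666747933226390520245481473866606418040703936072533316031781459444661486540374715640333183994818292083663267537762013083160644779305606014715194428031530522759939665824992625515873507433971566783793862906548825369344473437041079816738862511750192013682730945880473963072319663813621902679692168081233181309885485040176038361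20944431006026211729555767446397465817359464544357712921331383544667595846728944326080315456660452726544238828197006480397157999853376076391558822135632767546639089789710287106911924720263368118351866190615026277456048722908947522599986235475052132914087548058433247930780444962752609255009976539258743165431756361281676599500372696778619299513008196086359549165692766232296022604644299972567076022184325548682145551726425211589730814783622916919830431772564709977758814521368720733615591608817795784288109309740230944410789107252494125161870691366251199996067656592602846149337756488007719114960921205798083526068594132317655591933488356632251330219432596161732879449089722936852200753210129717846262504246865460059695091786162829487989904504556030489365496504379941534311199876324864652940308894630588348574333504839749367692957988181088657455408616745361761332250250230640684075362808546522181440413204027092118515259530487131385517439039496170921461137027573984709698621400954694619683043710220350960834043575308191921572695343706131241895604005851870755032111628498195892010005804557277533356134634325689119436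67792172394190485133493894368875431372439780021051235171344749975084571433378438304157922147665822003247392540136749649738489506897417703057515018679398253248275508120642395824232353747271457011634929974325339535343234296579564496311938330647978186417869041859706134605371167007254193196952855229981746874669705036203320574516016099096250372330621193162979445856142049925472739300238917649582946285755314813103469559448285905739496486237205814635919639344537365326405410231448667944417880064355655883820447695352751081333503470939164661587370436260108761971807079071175670497082380417419615661770644513348599562284253068524497158123160796733257178795957152135970776899923454773400341357801084646081048930451326656533675626268058973008335382302998389214454725529035039814324950149531352123477236926038127766396146351193601397452630510278272319655240077020042347008038354393252733896659963012566426096130415150894178852887708431716787341649948343378422660808588125906838852869417540668898129964614946545694358697678779822936547482606537929761941699840501989620315582213308002825245639521904719545526730098215013325593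86297590680824805156107747884569520874900658911311120279838100295761838232907536037205901593286737296169861906001609477422914599006239805248875817155712192319630978350141304401379828806708973978574028218569302240012268243579935355258922723012688888425170078671977436329848236342414680665373878849058124525641329977268557465929700871090965634581100895433906748828723787648960437389375743498597320941149436479881265323556837379217861853455627944427326476597857081015347517238697291266234188293162011598717851653416853568731792222133384179487841736448887937431272252367092472026071380995238648445461928827046757106869689707950609458262814500892634273073017481543988968505739618738016239488061386461476766735877544665607668016368882906522704379210081421817209453278544944836945946281681994535706741471520276099867436680614334885404594093886922440166501471188350591715128928646859720574028598256319755333266562043164308287215229247332886045867818119976696603428041841843320332596002447101074398711231492642621905500930512964791539493398383546720681273634906475737458931494238602219556103689110713556258086841773686651319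52092057546688724348335646033208986224918245648034627836036672703925033540455088999312043576605285577150055765781688575597100189098471925064260669275213671289219083192751892047137287496549773957531882721662562399357616359501981893742979825557431089682757531500302477548493956534546939398563331008480304319848000641882662575327359539107080101107876142297569816970187206973721489885480927214661397133251952441867656890590382225987744643220690296673525414254397440828666060006838153028532082513018287759440081068598436418240172414427015065714507132651482411549140412185222964070155540860800386138113093652745045652602752544390741206486395587736713301905360139509797459603630336524973729208834770371119952861658360335650047445170422315905968647982565986213333675672513171236903206623669130999359193876539181343465239095379641700989063006873204954031073795980907248952464532230863813958368502425872341628189794853191267503143982219640417863154359827280495459663237338515322816813908866619867935731444623317956833529690123120387596277270441843022151331277681083173428014892513021068080963468403806634983246900419656098665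00617615662458239637433500111386673572586408694062270314541477048918318286148609288750624883242925986801014886503841319293390135522097946655324624397046647205137941889170098614175473652329641910742905541478885250349709791782243237771322113365390588746991661990812447828376604885754643441776241038813881165228635075626164397943145362775492352704165955528290301959924457231207596344269867195276336114283956605936364742087349791157799195587193763799205617940257740567893968272859810951855945559420863870591991441137341488456950950153146918436759185548597079205695182862137899191981463918853103870572674018424290152904136765868504797055369185490026222829199603020081498692780888157235520074718156259171040469092184510018806690538325100457917062782541803957933925539937078060618340363901359660502525338920099827357337303908672557148298774653927860972534285485784487925689451389258346566951519947393374414220070169462406375106770270766472235998157338275701826450127849621696158088807179621635285258299769232875918592643992386796782666773911226033253909587963219380546980097597629802547518465475644762054908023996128507064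51051749761525621369880702490054833133806655292163078556419866986422279748857251776277957749212434151673518307193080468372593731763226358348124868756016726953228964002282258672958200408859399210399167420885031056918613302914188958926021100122962035202283677244870229241987913561580771503249699818170330010171947823799794360435632530519388707509750176308203535705274178130883356441222847215244897294986402394262286063856607809922060985286907705577731713862644213438920489726532911273634879173672822459182395000973997191455398938875079411401030848027118327383506626080559797162560450254608746152575983866622192725583833468769999526674223679992093617146668966652583537012310020821047266266479869707292189076818349321150316858023941592790391345401601182796560858493681101245251288159013474633802601111326630121166299990549141281572381759986165606578206907428253234664323294637352260733945786795284747947275897126777140169571167891553457283856012750929548928946499102921300570066399914322944693707351785027045464205333733231130932170213349971039757496288594749934806657644787993598608575475996153717477093389032946693361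90556899058832104395643463931463692058394587701567210942752520930070044651236576191623540461016426803688848253787545555936730920118427525365355021338555624343460722631677391597283272045288214481157601874428252930480547169819503310935715580792001803033595233334393303213772454053054979445630161892883010870018209211623215039243294509771095444904638891270847813139456854086463896994041627541645963455155736783435066390531921527786078001532509979119702207874654252043576109881187753386393048371110138415234332403430266223355906159075939140905238036314702913213998862319293546783110425767095806168876960355151026581216787638521806956728496576220819847591228569947960816620551642947530459204640670077111018497509798736795446600980830034830145427075121045249325092156015649176152964555474394088190028662503299440081400866028065300468151582349786658834878294887036976551451250775765290069849790689530443086052117589063078556327562848349521547371510332330149083670552852123293580339852983699126758574216400754604367272539853854881906573492700069072824761353785549134198239623331994719829187654460732795796073326232516473422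59922172574093024825286313945429183929733489580276231537963409573898374905620570234359478715137531616921365166962780378779712522995719871706403401055151315313587444331825481626708575786826539057992662966286188248986793125902645329810466589321014892509809415721571246351395477311965181561589856031500442827665014750560676147573120472719622016878901126207321252717354906874346604310830626032951692562728417463013354089230141921106376615143005184529993938273540661697742356119326452754473428053162372656298088410374241549341381555077477346159329906344039380208817446760259818827482494832423054333919701827751616753988786349591056403816206832902412613981389942880756218516490035356868215694585791513469426389990207932147657836916789136079956737518508461665503242792891497218799855846898337195863631312585862546991576655388534902469448183683807881112562738240706911502705494623189214133934225492117454720677645579012497699982239992403536899721545617212038870366394202403153221127188625946889119562109094348834564339390925070340336593677900133183436101884494252599000682041978426221160250952832405556286986881002016780774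84851812314798894303427210141723195057231522892663300068448894544902981962424386053945751510367204328950003284098490464771205545561244972743507479311469056240685247975218020900305002035716075060407153039185216063084440148862196080149262335799968794797435027951536932205417053188426882974832314685315803652445612373092790985262568520002021458035141369578904988799233194363064776331982648958055374462129118049166539384400414975620085350571353671797534799101919303880414804392792818321957403782556075629715319214857198164654907569711332612001379769429158348848006261292400272501064725619932101858751299285058693147112056179519615793369140230499023105714116085164133008840329409787436632223867654114510624156124893945270517570218653887056970583133108073104895076176558745818462226919714865819909138627938817258080203231516665854862907277905187597079512102241963031495749770195070757653362037962120965007860154668318553709435773696608586008220307574694886418140628505216058059932706021694173605722561137881171887141021794020652964946002465945363631200989082525202273964931666476831576062791467227130920455101660680308018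14153937311167866477159047875934608126436202195107149641218433846995845992690162688564577232894638336735263849824075947238312244472017757590286125012184356822965718424806236570483293102943818225147537766974687234799339223787429931412048406934035949991251673323436985793564662092935153318042131823675453952202388116001271388244033374209397470308294000114013711047189409444915570119007927631114894502989224299360080184003493124579064559537678440972565269228892339087856430293198522280936621414302470695118632579530073585413699801953372790127566368648446404873368648630520863451093121892494764440740039802791566468456279772032789309930299925731338683535729140332526636404763411433482946244182715297763947656910275397028545317216309112400555349227461040170323090860585846567132720732313569842849147950037393014978255729775138832052007532286282321130216745788061022868414917765964337647158895594666261896510576336697702244689139053563558068365833984338052563950203417905144406304126390001942468390843189967277062141962395708118930031949871693471561420063359010095483189140777183944614196162663832256090326155593558939736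52509890230247759809810966996233626604791235938142999033459525611554317579315398713522123605075470538056954776822242702851260665503084850222266442464887405616488661222005314888425521719125054250984373250567679450799703119295914937313994694743113436538107804750226559219098259234061310742485498972393726258250794400055620495290207974968164511602327016082738409807216601305389812496953005827981322050346034875544143786228539497354749706123005788777626239127266171793582053268768159135042407064723251323660690664426506700346794027985436699858966214762016638537997094748354549070275919006998347522991597265312888187912367401344838215492574151598257060226061981595045665966620788583927383122866330114619782196431109701139526588633015423406276277025758093744284948573163150961676320844102446296890470724420563816588517432944175875205391244544285158627681308894388507879861244658212175865287925434627220628342469295527140708183807588313836374579966102201710311614596039861352661163870991813796494234496668566578962917709293890935824635007116544970081782937256705073449643072302783692791951286118788887738128091321529310954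19207935779204841424530439829880512939701572594427882268484093940293264611306520956204819959477244956280219843473018663128166008634347905337160802885860553925399935081903372881693602095420895864374480997998442466505584542326151531026520241974650337435380245315540589943387353411467754495246886950003658508910058694741569226955483408888661149955848964429028962427256263057281351457453606881694200534152050864099308894774655822985462697166276569574485657572609667365647257962010933369143003071187461068869802718615753991019667498194477152839446070737496445882056879760552489445796102503229891807833071330569081718796831262054840551650911673719280538913046952219913618392257717452211556575801502648949224530459392541574398439127482552532495601606540763034870904977707765505868854755185927496469077673935801202263442681633243038103151174852827321476349236866725421369500670187581712111084939808538637579140104539671032992430120440237868803188264202966106123840788860046752963302706021502674784698019754839311557054452132208648515219028367653203162475720074610869804944717506199352842579583683734257888867732880603376908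38262449211579289811483695594636983970111500039541935074467962954991657539112393161904234072066280411242436238651441419588469243626260652694400696452654697888837759726978186433822185519729393998504988573424337205488792075302902655512909444049764487364749934427455089018194913724794515472673939887825945155088018638443479874802580291992862271861060480460537755823682387357133481950511487004621487336658548741749137649656330018112151196558061088310485398858961902100039477075326985840046937009734958323764256381664841240703096975749099561862248917785357347993522437672271950050585031960092508643660514710464427860149030446573750362960119713728283831020556854574171693815835059209802849024354123719793465806492518320868210320464548951206505507335395121968130048543323290691273171657618531015171424991848501429440569276649950709811429393895657001052710794720350774330594255864209968715959508295395660781887834827244655519663877413210306593625111543422372699150532544123096507163111005832415001800453432531397761717723768262801894337591144615641745266265324999687683115686803057276715207888770282812600653023540069161143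91787444143387714842153496289504753574626667718727741992313210743865639187251667277305777808788702615499353406708951913390833385624508858305264529939153588723623743912160236357984922176332439838310041785946581177332761384325608764585010798459815282076939942056848693213969010440732332610121400364259931324598210932342525220471835197175779433149268095597427733210921235280324017234794384144911987151024665030863066676675891409853963115926794255308579770714469697079980454074690254221662284313755779561940338127568360217357495231886211607666665919401380009632157372066108169869842142842656578108542193247818634142462984210347841201429376198034375459911338712432055420289534666577630957803916827524388465012465528616907794731120300124077412440875279957896591787565301543635359389785481551425167483861475066222360383906216582057738326036902605159730622382750487528857839215229022107838464247324314165456485148581558521970196828025206690361542072390317758448115712520505015549821302918693690626472765309125675309266964672052046826015017759860789606678987433818886547595784613928195939505989099821642793144580393288407913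75894830685019817105776893774850571370330891351949707856038778748916608336545800019038466757824308873340155365264917622945601451519839176352299370849994605403397801573430111283996520478054138391016377560665771092312361924448300387960249558092084348641372751238110785665011218406361739367962402508880774464197000889367143356885966811147142875646340164881870977412024356587561057733105421104677936970960895178273446512442878851094250324026157399186242476662662460986814456027101946587543771961632302923715144662521855439959115389330025904382057747145622937047546962708118955919649002166824402708367589129096657650033314509668668449684840874654500438162901363024011119472000793209448454012024433711861017882482261957386766659143189670262966942390796373875932353237043608735469397217516639270221419666382475445358013514732581563720548582552192891571273327793832368857481110295101227997848764197980423199543540023474198481916925341953087189008550601778095217385295392778457945860315027323677036668336133360185452401741593239083197851038982180247860235084638227377206204261103304756137257450706059697047483944022184724766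09981586892998337336162184006325220931984122430634266357168326541068599635334610085516654173027936886914098278447537069692020976448238482567643039398163801948354003585545498818212016121202882084162653329546265797416401165775578104966359959632122607283675290070988738897223240737152280088091467440704737785387633401322614071571065449215956415062051969293606370263982875632729893087067408250093889276807739454410299254037828828637620016866831798295744478671823057016699442920826516517931518795839268017204623863470451774438830452571497148832163427956804894123930896517311419352127429394571323351383392284802188640477321052816721186490337137164145464282820314867706998436626631444339428394013597189274799964069054657210608008526844288313066478139348348632525316757370266082128730171871912612396410160582986570675572941189952243468616632810608941611756444402697652458153090896331900906067170370115700123051044347471383632115599096717504397960639651107856952184514987425042853621132694957595906773448385477819179432751748226215759670092613998146827898711309601805635511013180667091231548715079818814705998882225452407385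71503357068649817403246142108848368137458637882424473171901666145864368183889313426489938601466611491599349171070941633948865445478417914900247081427603530698234658973318239016789398598004558335462621897092562607188478231884234448946349991462298598877555270242142351334576942973703655154320262716205801195263315703379583767225678119326668212690261693126038756108452506222225244370632790787018115924234308546732981446062264130409745576447887621529796319450669088929777387378507724088842412593777292180770036872731719047633869546809774992700404797838843619565258664192684257794640152175750878021804449970707981451050931424668086248954163842118168965565182568047650003556070013395659547264379403257823049729861820441000359810867131031654013025488878240422189676551707403914273240403698411524741129840563462628621668911400415613594043620803260694030543380420240937176301824516980388978269963650448801876222159310508795614021027830732204900389033004534978919343039364214499089976709180687214364291435358252431199857252022037701136261745717525546095781330935053017819769261118175585034543088857317572960511074202550486315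12049156712685118989539849774551039585028566499515580517757400476551344317397441846902320270890900358246880772704202698755351252984975052854963369667469116747612248596409646277740772668552273864189154941698416938868830215312957845907035344256142685984464051215030942114971516060558769227983534289311443188601701538442557280957465681030343706437329647124256743024286070398662660397814169684865257598461270991549710481100645082427304294394258952982757925932489046137072164111456880295769684849084177822024519127247580662590966461301118563935103962884730576763884461824184947107150440231197850416690556323041968026098456486370574915173475376474821403664260154926379211085149732044252863575514870876372946619602631857577586930398742939344656910199883014232483069759718457127348666219566197544905371550985583830866219732011776947223235134122879643870606646659213242044472310317181956726981762219654252039693483749981322483771610431586084500799716875358676122902945955129834509207394596683376536517814467285855281499419454720966774555121818741431773687524616389666235359445817827200079957176177951927326563993400936454200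63471100932390194827292870187314377969186111861930733792571098481898806170857848659961247544298465323597672803194151447211461564089767943397372184114759274794013741246437249344625133046245944471491862155359618354048605508650563778157247685459603745602929103009592085309835968111974898671885735288555188410196090103922281459046731495338059994585563089816123410961832387193146343568063855873414552745486035980884339244203490956795500193315071354246737978913433942375550505337006728854433357579389112112641702257427954237351707795891782242330966029260360454093225626268451542834046745948502416391662436004597187292134779637490166823080467506471319226355739329288994766117587321024055641221654395091749229393669751848460543000115639534553984259909280543775197276551291067785163326945844672083282959016791130625437314221286950196554263553199247887051965322408086849378151412703879473338240009304268294782723250741249434811202174355826266702976640133516609202809804831871719463000865833197227897335517196296777639016689668991440853380091738482531217480084087116717312692394175199799617119535521790904540770446969259996998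50149794579385859935951909402563840383595479926081145125549926321432332071179036544774218140568705270093661150215181595748379064100990140003942016958057854532818265839328288800078180370178294401382072062426169786655077761776817290936238407713439894631489999214875892956810614178189554291142396028519187106428198262629671374529206948785790411576755283879211459246373788833210426610615157844195700586007200971263405498856632102501473297951371787822903912865082621249870188569043856621372693456220923258935550268596592540956168217773549776005644398507711795168131623155637759112758600434720107056106510988793579755763470933383902747726726145530930897413165647458294423566302863880530106160263119360004487856125786566334913775299136312180195057645783670404776928282995934622532750242035306068252937823574779958378561766767431645911361860312616259531461994164489506371125186432410363656203102464369617068966786800031115361847556748598024273075675832006240338055529689072108711348670605175792312029498574453295855179690521913990736651417364348686982130066116503991906404867507104040200233771574910267520537881165254198131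2707304751966911116036996588361571803969501218832677726203180505842663781861044512568173047771038120131420442598420023677026855967590479458328499848225085062388949731666540136620299095114668206100244944583002637135425630948994623687618978474649725505788605012907083103332143283968623693359502845377757521597976344075017483121139784564850362189278294706752266529494748017096483749955476448309950081859993448055327674809409174173079172546154132859566825105185431620561733060742057918436069511008040201960744390085073154025674253185458441094276170175415678699583875682020240511133341291845485986404109688760877069587930513374094171160302937569473374977290071925665016461859521639296512056934383326073034373245675572124084276406399928325520964841932285284627839055614357779135958434634917112115932306525173699413260354587554846502607457302857329621947315336837681535410795012497782394231602231837100035851829693549350775614662734339678466748766403583483789495080639840955736669818339075710214142269765754861346604446779852069756581176433896420224773124731083546417855327967246917313234929734726976850850200086295415013128406405940247294229638495665673044096146950528538192551062214493119282473987307945826543081195982247987899605817512279860009437921429122982093819606598123788151942367361063778754775482369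

def TR : ℕ := 1148504773258281776942352511564517662440165330956018514504783704102446784073291869724529437501881606221408296343822791614096199401438640204836669549794771832852846811858193452256278057812957917922286268353902895739495989383295686261216428331660777901570928825663570857244041238498924818777177811263339773408916839050012267686027176063162976525675000055591653720157549469089179426917161240843576004556700922712501781688161883933383045656058248312968870081713880664751085143476210722592968573031074670918719765813978089633757250659666402125779221537808950466436475823255428241038202878789324737974490978187198089591914783459102241575897282331566954777493510258725233625850576990370447838215361439294200947281826726712921588986362405269093118661393848944198510429899693727001234298902220895062070406658342396319705774079329859316418197011033364593994346034126783431438957548043861406464363821405839367319649363820509202910456584754103420547161732103889759624344477984394680186326536307599100025475885401341599635297996922463513126345862824687250176252264364258872091294177501715680231461199891666538971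4481595361624943357884436740573241494175064468456714817067675989124044571484866416679857193395138704357278544104159475655543948010976660468249836635699819888123466350388491683066460215282212852881007372957421927784030172728232564965753827500602842388842925907084849923682001254661895262779053478353631866916305448125777420727129199866567329784535771498401182443276098094600828176829558552965466555122813113229802980334391541226728193947938401449172303356468324565411232127777430680219546384140863709695399258153202085139242820192447097727666560656953718102132613254472647826851425238948269114695711014902898876013391007993827872548437576525502160380369867766440908215917506172730536785135120631320167174872149021172265983551132933072138509456500433601942530096140981815407585940313330417665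

def TK : ℕ := 3585343110115260754473047450378469508898860956149406098873155333292407338947554622291676117281058033688925820285175425373041446437722567577106773757673871416011029475479320223721841793666330150112672019947983551001075372171249324434538765112359002443868887803673646143824186203119597179530141964412008242532382286276620411295167714583542039601853035621623863968732872623592923705776071119306513127714751785107324739723481539078922623446415896641203160983382900022996816928082028988674782106965219352892978116023696623968094196219988335548924922513314041977801208868087408663861911058512789955529006349978423883704817436468923282116556078819247927929516172107808103269008229692013085352370449391966986797761923481288412446675880451650175582735720239885767424768276987215668613952637216456779893579256883295737963949662380347946524639429952723185632260671722001287987250715412065637845412221428644299362501234073066785231010464441574603644955202674399092010809532758573132596536684610134726386865065066845804865983049148681081302066650086711625483733414135237990702016742415514197743315391628633750806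2950474152401173646540144504574330796128762467386248274668060311920410129827615822856370712054366792332193835580529637084070195462083055321538724601233477889854398343686031314779066681301887731882119750205512629378147247025418219510219367295806962975465669351820289911947215501286623266844291210041913675099500118966140059198395824574686504595639434360645974149168397602766597002700259787116852078953689254156110437380990118019753487910743240619825214004034882007328676454500839655367033531619424494687408759392244229056371831266696271611406574019235541115948118134063872889853515150530073658314584243200537677406299687616553702857232535417812999428841005749073231748575602678192859219297477911655595786083243624460157741506635649493828920448868707504183716322742617587117217815177015983733478994321390703324769586396716278842194743410863692311382231871241596671271957588984581222039572845108453685927976417250375354457140493262258175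

def Gt (g : ℕ) : ℕ := Nat.mod (Nat.shiftRight TG (Nat.mul 480 g)) X15
def Zt (b : ℕ) : ℕ := Nat.land (Nat.mul (Gt b) TR) TK
def wN (l : ℕ) : ℕ := Nat.mod (Nat.shiftRight 1823555965829387 (Nat.mul 4 (Nat.mod l 13))) 16
def oN (w : ℕ) : ℕ := Nat.mod (Nat.shiftRight 24936983090113874878143108609 (Nat.mul 8 w)) 256
def mN (w : ℕ) : ℕ := Nat.mod (Nat.shiftRight 46450887744995502461430222849 (Nat.mul 8 w)) 256

/-- The code. -/
def mk (K w m g b : ℕ) : ℕ :=
  Nat.add K (Nat.add (Nat.mul 16 w) (Nat.add (Nat.mul 256 m) (Nat.add (Nat.mul 4096 g) (Nat.mul 1048576 b))))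
def fK (c : ℕ) : ℕ := Nat.mod c 16
def fw (c : ℕ) : ℕ := Nat.mod (Nat.shiftRight c 4) 16
def fm (c : ℕ) : ℕ := Nat.mod (Nat.shiftRight c 8) 16
def fg (c : ℕ) : ℕ := Nat.mod (Nat.shiftRight c 12) 256
def fb (c : ℕ) : ℕ := Nat.shiftRight c 20

/-- The code of a term with residues `A, B, C, D` modulo `169`, `K` modulo `13`. -/
noncomputable def acode (A B C D K : ℕ) : ℕ :=
  sq (Nat.mod (Nat.pow A 155) 169) fun I =>
  sq (Nat.mod (Nat.mul (Nat.add (Nat.mul A D) (Nat.mul 156 (Nat.mul B C))) (Nat.mul I I)) 169) fun l =>
  sq (wN l) fun w => sq (oN w) fun O =>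
    mk K w (Nat.div (Nat.mod (Nat.mul l O) 169) 13) (Nat.mod (Nat.mul (Nat.mul C I) O) 169) (Nat.mod (Nat.mul B I) 169)

/-- The code of a term. -/
noncomputable def tcode (t : Tm) : ℕ :=
  sq (rd t.2.1) fun A => sq (rd t.2.2.1) fun B => sq (rd t.2.2.2.1) fun C => sq (rd t.2.2.2.2) fun D =>
    sq (rk t.1) fun K => acode A B C D K

/-- The code, for the specification. -/
noncomputable def cd (t : Tm) : ℕ := mk (rk t.1) (wE t).val (mE t) (gE t) (bE t)

def ce (x y : ℕ) : ℕ := Nat.mod (Nat.mul (fb x) (mN (fw y))) 169
def cr (x y : ℕ) : ℕ := Nat.mod (ce x y) 13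
def c0 (y : ℕ) : ℕ := Nat.mod (fg y) 13
def cK (x y : ℕ) : ℕ := Nat.mod (Nat.mul (fK x) (fK y)) 13
def cw (x y : ℕ) : ℕ := Nat.mod (Nat.add (fw x) (fw y)) 12
def cm (x y : ℕ) : ℕ :=
  Nat.mod (Nat.add (Nat.add (fm x) (fm y)) (Nat.mul (Nat.sub 26 (Nat.mul 2 (cr x y))) (c0 y))) 13
def cg (x y : ℕ) : ℕ :=
  Nat.mod (Nat.add (Nat.mul (fg x) (oN (fw y))) (Nat.add (Nat.mul (Nat.add 1 (Nat.mul 13 (fm x))) (fg y))
    (Nat.mul (Nat.mul 13 (Nat.sub 13 (cr x y))) (Nat.mul (c0 y) (c0 y))))) 169
def cb (x y : ℕ) : ℕ :=
  Nat.mod (Nat.add (fb y) (Nat.add (Nat.mul (ce x y) (Nat.add 1 (Nat.mul 13 (fm y))))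
    (Nat.mul (Nat.mul 13 (Nat.sub 169 (Nat.mul (cr x y) (cr x y)))) (c0 y)))) 169

/-- The code of a product. -/
def comb (x y : ℕ) : ℕ := mk (cK x y) (cw x y) (cm x y) (cg x y) (cb x y)

/-- The block value. -/
def vF (K m g b : ℕ) : ℕ := Nat.mul K (Nat.mul (Gt g) (Nat.mul (Nat.add 1 (Nat.mul m X225)) (Zt b)))

/-- List expressions. -/
inductive Ex : Type where
  | lst (L : List Tm) : Ex
  | app (a b : Ex) : Ex
  | scl (c : ℤ) (a : Ex) : Ex
  | mul (a b : Ex) : Ex

/-- The list of an expression. -/
def Ex.toL : Ex → List Tm
  | .lst L => L
  | .app a b => a.toL ++ b.toL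
  | .scl c a => sclL c a.toL
  | .mul a b => mulL a.toL b.toL

/-- The number of terms. -/
noncomputable def Ex.cnt : Ex → ℕ :=
  @Ex.rec (fun _ => ℕ) (fun L => @List.rec Tm (fun _ => ℕ) 0 (fun _ _ ih => Nat.succ ih) L)
    (fun _ _ x y => Nat.add x y) (fun _ _ x => x) (fun _ _ x y => Nat.mul x y)

/-- All terms are good. -/
noncomputable def Ex.gd : Ex → Bool :=
  @Ex.rec (fun _ => Bool)
    (fun L => @List.rec Tm (fun _ => Bool) true (fun t _ ih => and (Nat.ble 1 (Nat.mul (rk t.2.1) (rk t.2.2.2.2))) ih) L)
    (fun _ _ x y => and x y) (fun _ _ x => x) (fun _ _ x y => and x y)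

noncomputable def lcd (L : List Tm) : (List ℕ → ℕ) → ℕ :=
  @List.rec Tm (fun _ => (List ℕ → ℕ) → ℕ) (fun k => k []) (fun t _ ih k => sq (tcode t) fun c => ih fun A => k (c :: A)) L

noncomputable def ap (A B : List ℕ) : List ℕ :=
  @List.rec ℕ (fun _ => List ℕ) B (fun h _ ih => h :: ih) A

noncomputable def mp (f : ℕ → ℕ) (B : List ℕ) : (List ℕ → ℕ) → ℕ :=
  @List.rec ℕ (fun _ => (List ℕ → ℕ) → ℕ) (fun k => k []) (fun y _ ih k => sq (f y) fun c => ih fun A => k (c :: A)) B

noncomputable def pr (A B : List ℕ) : (List ℕ → ℕ) → ℕ :=
  @List.rec ℕ (fun _ => (List ℕ → ℕ) → ℕ) (fun k => k [])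
    (fun x _ ih k => mp (comb x) B fun L => ih fun L' => k (ap L L')) A

def scC (r c : ℕ) : ℕ := mk (Nat.mod (Nat.mul r (fK c)) 13) (fw c) (fm c) (fg c) (fb c)

/-- The codes of an expression. -/
noncomputable def cods : Ex → (List ℕ → ℕ) → ℕ :=
  @Ex.rec (fun _ => (List ℕ → ℕ) → ℕ) (fun L k => lcd L k) (fun _ _ x y k => x fun A => y fun B => k (ap A B))
    (fun c _ x k => x fun A => mp (scC (rk c)) A k) (fun _ _ x y k => x fun A => y fun B => pr A B k)

/-- Sum over the twelve characters. -/
def S12 (f : ℕ → ℕ) : ℕ :=
  Nat.add (f 0) (Nat.add (f 1) (Nat.add (f 2) (Nat.add (f 3) (Nat.add (f 4) (Nat.add (f 5) (Nat.add (f 6)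
    (Nat.add (f 7) (Nat.add (f 8) (Nat.add (f 9) (Nat.add (f 10) (f 11)))))))))))

noncomputable def bsum (w : ℕ) (A : List ℕ) : ℕ :=
  @List.rec ℕ (fun _ => ℕ) 0 (fun c _ ih => @Bool.rec (fun _ => ℕ) ih
    (Nat.add (vF (fK c) (fm c) (fg c) (fb c)) ih) (Nat.beq (fw c) w)) A

noncomputable def lsum (A : List ℕ) : ℕ := S12 fun w => Nat.shiftLeft (bsum w A) (Nat.mul 14400 w)

noncomputable def fltc (w : ℕ) (B : List ℕ) : (List ℕ → ℕ) → ℕ :=
  @List.rec ℕ (fun _ => (List ℕ → ℕ) → ℕ) (fun k => k [])
    (fun y _ ih k => @Bool.rec (fun _ => ℕ) (ih k) (ih fun L => k (y :: L)) (Nat.beq (fw y) w)) B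

noncomputable def isum (x : ℕ) (B : List ℕ) : ℕ :=
  @List.rec ℕ (fun _ => ℕ) 0 (fun y _ ih => Nat.add (vF (cK x y) (cm x y) (cg x y) (cb x y)) ih) B

noncomputable def xsum (w : ℕ) (A B : List ℕ) : ℕ :=
  @List.rec ℕ (fun _ => ℕ) 0
    (fun x _ ih => Nat.add (Nat.shiftLeft (isum x B) (Nat.mul 14400 (Nat.mod (Nat.add (fw x) w) 12))) ih) A

noncomputable def psum (A B : List ℕ) : ℕ := S12 fun w => fltc w B fun B' => xsum w A B'

/-- The sum of `r` times an expression. -/
noncomputable def sumE : Ex → ℕ → ℕ :=
  @Ex.rec (fun _ => ℕ → ℕ) (fun L r => lcd L fun A => mp (scC r) A lsum) (fun _ _ x y r => Nat.add (x r) (y r))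
    (fun c _ x r => sq (Nat.mod (Nat.mul r (rk c)) 13) x)
    (fun a b _ _ r => cods a fun A => mp (scC r) A fun A' => cods b fun B => psum A' B)

/-- The digits. -/
def dg (N w k j i : ℕ) : ℕ :=
  Nat.mod (Nat.div (Nat.mod (Nat.div (Nat.mod (Nat.div (Nat.mod (Nat.div N (Nat.pow X450 w)) X450)
    (Nat.pow X225 k)) X225) (Nat.pow X15 j)) X15) (Nat.pow X1 i)) X1

/-- The monomials. -/
def M15L : List (ℕ × ℕ × ℕ) := [(0, 0, 0), (0, 0, 1), (0, 0, 2), (0, 0, 3), (0, 0, 4), (0, 0, 5), (0, 0, 6), (0, 0, 7), (0, 0, 8), (0, 0, 9), (0, 0, 10), (0, 0, 11), (0, 0, 12), (0, 0, 13), (0, 0, 14), (0, 1, 0), (0, 1, 1), (0, 1, 2), (1, 0, 0), (1, 0, 1), (1, 0, 2), (1, 0, 3), (1, 0, 4), (1, 0, 5), (1, 0, 6), (1, 0, 7), (1, 0, 8), (1, 0, 9), (1, 0, 10), (1, 0, 11), (1, 0, 12), (1, 0, 13), (1, 1, 0), (1, 1, 1), (2, 0, 0), (2, 0, 1), (2, 0, 2), (2, 0, 3), (2, 0, 4), (2, 0, 5), (2, 0, 6), (2, 0, 7), (2, 0, 8), (2, 0, 9), (2, 0, 10), (2, 0, 11), (2, 0, 12), (2, 1, 0), (3, 0, 0), (3, 0, 1), (3, 0, 2), (3, 0, 3), (3, 0, 4), (3, 0, 5), (3, 0, 6), (3, 0, 7), (3, 0, 8), (3, 0, 9), (3, 0, 10), (3, 0, 11), (4, 0, 0), (4, 0, 1),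 (4, 0, 2), (4, 0, 3), (4, 0, 4), (4, 0, 5), (4, 0, 6), (4, 0, 7), (4, 0, 8), (4, 0, 9), (4, 0, 10), (5, 0, 0), (5, 0, 1), (5, 0, 2), (5, 0, 3), (5, 0, 4), (5, 0, 5), (5, 0, 6), (5, 0, 7), (5, 0, 8), (5, 0, 9), (6, 0, 0), (6, 0, 1), (6, 0, 2), (6, 0, 3), (6, 0, 4), (6, 0, 5), (6, 0, 6), (6, 0, 7), (6, 0, 8), (7, 0, 0), (7, 0, 1), (7, 0, 2), (7, 0, 3), (7, 0, 4), (7, 0, 5), (7, 0, 6), (7, 0, 7), (8, 0, 0), (8, 0, 1), (8, 0, 2), (8, 0, 3), (8, 0, 4), (8, 0, 5), (8, 0, 6), (9, 0, 0), (9, 0, 1), (9, 0, 2), (9, 0, 3), (9, 0, 4), (9, 0, 5), (10, 0, 0), (10, 0, 1), (10, 0, 2), (10, 0, 3), (10, 0, 4), (11, 0, 0), (11, 0, 1), (11, 0, 2), (11, 0, 3), (12, 0, 0), (12, 0, 1), (12, 0, 2), (13, 0, 0), (13, 0, 1), (14, 0, 0)]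

/-- Comparison of the digits. -/
noncomputable def chk (N : ℕ) (want : Fin 12 → ℕ → ℕ → ℕ → ℤ) : Bool :=
  ([0, 1, 2, 3, 4, 5, 6, 7, 8, 9, 10, 11] : List (Fin 12)).all fun w =>
    M15L.all fun t => Nat.beq (Nat.mod (dg N w.val t.2.1 t.2.2 t.1) 13) (rk (want w t.1 t.2.1 t.2.2))

/-- The check. -/
noncomputable def fastE (e : Ex) (want : Fin 12 → ℕ → ℕ → ℕ → ℤ) : Bool :=
  and (and e.gd (Nat.ble e.cnt 131072)) (sq (sumE e 1) fun N => chk N want)

/-! ### Residues -/

theorem rd_eq (z : ℤ) : ((rd z : ℕ) : ℤ) = z % 169 := by
  cases z with
  | ofNat n =>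
    change (((n % 169 : ℕ)) : ℤ) = (n : ℤ) % 169
    omega
  | negSucc n =>
    change (((168 - n % 169 : ℕ)) : ℤ) = Int.negSucc n % 169
    rw [Int.negSucc_eq]
    omega

theorem rk_eq (z : ℤ) : ((rk z : ℕ) : ℤ) = z % 13 := by
  cases z with
  | ofNat n =>
    change (((n % 13 : ℕ)) : ℤ) = (n : ℤ) % 13
    omega
  | negSucc n =>
    change (((12 - n % 13 : ℕ)) : ℤ) = Int.negSucc n % 13
    rw [Int.negSucc_eq]
    omega

theorem rk_lt (z : ℤ) : rk z < 13 := by
  have h := rk_eq z
  have := Int.emod_lt_of_pos z (by norm_num : (0 : ℤ) < 13)
  omega

theorem rd_me (z : ℤ) : ((rd z : ℕ) : ℤ) ≡ z [ZMOD 169] := by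
  rw [rd_eq]
  exact Int.mod_modEq z 169

/-! ### Ranges -/

private theorem toNat_lt {z : ℤ} {n : ℕ} (h1 : z < n) (h2 : 0 < n) : z.toNat < n := by omega

theorem bE_lt (t : Tm) : bE t < 169 := by
  unfold bE
  have := Int.emod_lt_of_pos (t.2.2.1 * aI t) (by norm_num : (0 : ℤ) < 169)
  omega

theorem gE_lt (t : Tm) : gE t < 169 := by
  unfold gE
  have := Int.emod_lt_of_pos (t.2.2.2.1 * aI t * oi12 (wE t)) (by norm_num : (0 : ℤ) < 169)
  omega

theorem mE_lt (t : Tm) : mE t < 13 := by
  unfold mE
  have := Int.emod_lt_of_pos (lE t * oi12 (wE t)) (by norm_num : (0 : ℤ) < 169)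
  omega

/-! ### Fields -/

theorem fK_mk {K w m g b : ℕ} (hK : K < 16) : fK (mk K w m g b) = K := by
  show (K + (16 * w + (256 * m + (4096 * g + 1048576 * b)))) % 16 = K
  omega

theorem fw_mk {K w m g b : ℕ} (hK : K < 16) (hw : w < 16) : fw (mk K w m g b) = w := by
  show (K + (16 * w + (256 * m + (4096 * g + 1048576 * b)))) >>> 4 % 16 = w
  rw [Nat.shiftRight_eq_div_pow]
  omega

theorem fm_mk {K w m g b : ℕ} (hK : K < 16) (hw : w < 16) (hm : m < 16) : fm (mk K w m g b) = m := by
  show (K + (16 * w + (256 * m + (4096 * g + 1048576 * b)))) >>> 8 % 16 = m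
  rw [Nat.shiftRight_eq_div_pow]
  omega

theorem fg_mk {K w m g b : ℕ} (hK : K < 16) (hw : w < 16) (hm : m < 16) (hg : g < 256) :
    fg (mk K w m g b) = g := by
  show (K + (16 * w + (256 * m + (4096 * g + 1048576 * b)))) >>> 12 % 256 = g
  rw [Nat.shiftRight_eq_div_pow]
  omega

theorem fb_mk {K w m g b : ℕ} (hK : K < 16) (hw : w < 16) (hm : m < 16) (hg : g < 256) :
    fb (mk K w m g b) = b := by
  show (K + (16 * w + (256 * m + (4096 * g + 1048576 * b)))) >>> 20 = b
  rw [Nat.shiftRight_eq_div_pow]
  omega

theorem fK_cd (t : Tm) : fK (cd t) = rk t.1 := fK_mk (by have := rk_lt t.1; omega)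
theorem fw_cd (t : Tm) : fw (cd t) = (wE t).val :=
  fw_mk (by have := rk_lt t.1; omega) (by have := (wE t).isLt; omega)
theorem fm_cd (t : Tm) : fm (cd t) = mE t :=
  fm_mk (by have := rk_lt t.1; omega) (by have := (wE t).isLt; omega) (by have := mE_lt t; omega)
theorem fg_cd (t : Tm) : fg (cd t) = gE t :=
  fg_mk (by have := rk_lt t.1; omega) (by have := (wE t).isLt; omega) (by have := mE_lt t; omega)
    (by have := gE_lt t; omega)
theorem fb_cd (t : Tm) : fb (cd t) = bE t :=
  fb_mk (by have := rk_lt t.1; omega) (by have := (wE t).isLt; omega) (by have := mE_lt t; omega)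
    (by have := gE_lt t; omega)

/-! ### The code of a term -/

private noncomputable def cI (t : Tm) : ℕ := rd t.2.1 ^ 155 % 169
private noncomputable def cl (t : Tm) : ℕ :=
  (rd t.2.1 * rd t.2.2.2.2 + 156 * (rd t.2.2.1 * rd t.2.2.2.1)) * (cI t * cI t) % 169

private theorem cI_eq (t : Tm) : ((cI t : ℕ) : ℤ) = aI t := by
  unfold cI aI
  push_cast
  exact (rd_me t.2.1).pow 155

private theorem cl_eq (t : Tm) : ((cl t : ℕ) : ℤ) = lE t := by
  unfold cl lE
  push_cast
  rw [cI_eq, ← pow_two]
  have h1 : (((rd t.2.1 : ℕ) : ℤ) * ((rd t.2.2.2.2 : ℕ) : ℤ) +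
      156 * (((rd t.2.2.1 : ℕ) : ℤ) * ((rd t.2.2.2.1 : ℕ) : ℤ))) ≡
      t.2.1 * t.2.2.2.2 + (-13) * (t.2.2.1 * t.2.2.2.1) [ZMOD 169] :=
    ((rd_me _).mul (rd_me _)).add (Int.ModEq.mul (by decide) ((rd_me _).mul (rd_me _)))
  have h2 := h1.mul (Int.ModEq.refl (aI t ^ 2))
  have e : t.2.1 * t.2.2.2.2 + (-13) * (t.2.2.1 * t.2.2.2.1) =
      t.2.1 * t.2.2.2.2 - 13 * t.2.2.1 * t.2.2.2.1 := by ring
  rw [e] at h2
  exact h2

private theorem wN_eq (t : Tm) : wN (cl t) = (wE t).val := by
  have h5 : cl t % 13 < 13 := Nat.mod_lt _ (by norm_num)
  unfold wE
  rw [← cl_eq]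
  have hN : wN (cl t) = Nat.mod (Nat.shiftRight 1823555965829387 (Nat.mul 4 (cl t % 13))) 16 := rfl
  rw [hN]
  generalize hr : cl t % 13 = r at h5 ⊢
  have e : ((cl t : ℕ) : ℤ) % 13 = r := by omega
  rw [e]
  interval_cases r <;> decide

private theorem oN_eq : ∀ w : Fin 12, ((oN w.val : ℕ) : ℤ) = oi12 w := by decide

private theorem gE_eq (t : Tm) : rd t.2.2.2.1 * cI t * oN (wE t).val % 169 = gE t := by
  unfold gE
  have h : ((rd t.2.2.2.1 * cI t * oN (wE t).val % 169 : ℕ) : ℤ) =
      (t.2.2.2.1 * aI t * oi12 (wE t)) % 169 := by
    push_cast
    rw [cI_eq, oN_eq]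
    exact ((rd_me _).mul (Int.ModEq.refl _)).mul (Int.ModEq.refl _)
  rw [← h, Int.toNat_natCast]

private theorem bE_eq (t : Tm) : rd t.2.2.1 * cI t % 169 = bE t := by
  unfold bE
  have h : ((rd t.2.2.1 * cI t % 169 : ℕ) : ℤ) = (t.2.2.1 * aI t) % 169 := by
    push_cast
    rw [cI_eq]
    exact (rd_me _).mul (Int.ModEq.refl _)
  rw [← h, Int.toNat_natCast]

private theorem mE_eq (t : Tm) : cl t * oN (wE t).val % 169 / 13 = mE t := by
  unfold mE
  have h : ((cl t * oN (wE t).val % 169 / 13 : ℕ) : ℤ) = (lE t * oi12 (wE t)) % 169 / 13 := by
    push_cast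
    rw [cl_eq, oN_eq]
  rw [← h, Int.toNat_natCast]

theorem tcode_eq (t : Tm) : tcode t = cd t := by
  have h : tcode t = mk (rk t.1) (wN (cl t)) (cl t * oN (wN (cl t)) % 169 / 13)
      (rd t.2.2.2.1 * cI t * oN (wN (cl t)) % 169) (rd t.2.2.1 * cI t % 169) := by
    unfold tcode acode
    simp only [sq_eq]
    rfl
  rw [h, wN_eq, gE_eq, mE_eq, bE_eq]
  rfl

/-! ### The code of a product -/

private theorem om_oi : ∀ w : Fin 12, ((om12 w : ℤ) : ZMod 169) * ((oi12 w : ℤ) : ZMod 169) = 1 := by decide

private theorem mN_eq : ∀ w : Fin 12, ((mN w.val : ℕ) : ZMod 169) = ((om12 w : ℤ) : ZMod 169) := by decide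

private theorem oN_eq' : ∀ w : Fin 12, ((oN w.val : ℕ) : ZMod 169) = ((oi12 w : ℤ) : ZMod 169) := by decide

private theorem om_add : ∀ w w' : Fin 12, ((om12 ⟨(w.val + w'.val) % 12, Nat.mod_lt _ (by norm_num)⟩ : ℤ) : ZMod 169) =
    ((om12 w : ℤ) : ZMod 169) * ((om12 w' : ℤ) : ZMod 169) := by decide

private theorem tot169 : Nat.totient 169 = 156 := by decide +kernel

/-- a unit -/
private theorem unit_of {a : ℤ} (h : a % 13 ≠ 0) : IsUnit ((a : ℤ) : ZMod 169) := by
  rw [ZMod.coe_int_isUnit_iff_isCoprime]
  have h13 : IsCoprime (13 : ℤ) a := by
    rw [Int.isCoprime_iff_gcd_eq_one]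
    have hp : Nat.Prime 13 := by norm_num
    have : ¬ (13 : ℕ) ∣ a.natAbs := by omega
    have h2 := (Nat.Prime.coprime_iff_not_dvd hp).2 this
    exact h2
  have : ((169 : ℕ) : ℤ) = 13 * 13 := by norm_num
  rw [this]
  exact h13.mul_left h13

private theorem aI_mul {t : Tm} (h : t.2.1 % 13 ≠ 0) :
    ((t.2.1 : ℤ) : ZMod 169) * ((aI t : ℤ) : ZMod 169) = 1 := by
  obtain ⟨u, hu⟩ := unit_of h
  have e : ((aI t : ℤ) : ZMod 169) = ((t.2.1 : ℤ) : ZMod 169) ^ 155 := by
    unfold aI
    have := ZMod.intCast_mod (t.2.1 ^ 155) 169
    push_cast at this ⊢
    exact this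
  rw [e, ← pow_succ', ← hu, ← Units.val_pow_eq_pow_val]
  have := ZMod.pow_totient u
  rw [tot169] at this
  rw [this, Units.val_one]

private theorem val_of {z : ℤ} {n : ℕ} (hn : n < 169) (h : ((z : ℤ) : ZMod 169) = (n : ZMod 169)) :
    (z % 169).toNat = n := by
  have h' : ((z : ℤ) : ZMod 169) = ((n : ℤ) : ZMod 169) := by rw [h]; norm_cast
  have h2 := (ZMod.intCast_eq_intCast_iff_dvd_sub z (n : ℤ) 169).1 h'
  push_cast at h2
  omega

/-- the normal form of a good term -/
private theorem nf_of {t : Tm} (h : Gd t) :
    ((t.2.2.1 : ℤ) : ZMod 169) = (bE t : ZMod 169) * ((t.2.1 : ℤ) : ZMod 169) ∧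
    ((t.2.2.2.1 : ℤ) : ZMod 169) = (gE t : ZMod 169) * ((om12 (wE t) : ℤ) : ZMod 169) * ((t.2.1 : ℤ) : ZMod 169) ∧
    ((t.2.2.2.2 : ℤ) : ZMod 169) = (1 + 13 * ((mE t : ZMod 169) + (gE t : ZMod 169) * (bE t : ZMod 169))) *
      ((om12 (wE t) : ℤ) : ZMod 169) * ((t.2.1 : ℤ) : ZMod 169) := by
  obtain ⟨ha, hd⟩ := h
  have hI := aI_mul ha
  have e1 : ((bE t : ℕ) : ZMod 169) = ((t.2.2.1 : ℤ) : ZMod 169) * ((aI t : ℤ) : ZMod 169) := by
    have h0 : 0 ≤ (t.2.2.1 * aI t) % 169 := Int.emod_nonneg _ (by norm_num)
    have h1 : ((bE t : ℕ) : ℤ) = (t.2.2.1 * aI t) % 169 := by unfold bE; omega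
    have h2 : ((bE t : ℕ) : ZMod 169) = (((bE t : ℕ) : ℤ) : ZMod 169) := by norm_cast
    have h3 := ZMod.intCast_mod (t.2.2.1 * aI t) 169
    rw [h2, h1]
    push_cast at h3 ⊢
    exact h3
  have e2 : ((gE t : ℕ) : ZMod 169) = ((t.2.2.2.1 : ℤ) : ZMod 169) * ((aI t : ℤ) : ZMod 169) *
      ((oi12 (wE t) : ℤ) : ZMod 169) := by
    have h0 : 0 ≤ (t.2.2.2.1 * aI t * oi12 (wE t)) % 169 := Int.emod_nonneg _ (by norm_num)
    have h1 : ((gE t : ℕ) : ℤ) = (t.2.2.2.1 * aI t * oi12 (wE t)) % 169 := by unfold gE; omega
    have h2 : ((gE t : ℕ) : ZMod 169) = (((gE t : ℕ) : ℤ) : ZMod 169) := by norm_cast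
    have h3 := ZMod.intCast_mod (t.2.2.2.1 * aI t * oi12 (wE t)) 169
    rw [h2, h1]
    push_cast at h3 ⊢
    exact h3
  have e3 : ((lE t : ℤ) : ZMod 169) = (((t.2.1 : ℤ) : ZMod 169) * ((t.2.2.2.2 : ℤ) : ZMod 169) -
      13 * ((t.2.2.1 : ℤ) : ZMod 169) * ((t.2.2.2.1 : ℤ) : ZMod 169)) * ((aI t : ℤ) : ZMod 169) ^ 2 := by
    unfold lE
    have h3 := ZMod.intCast_mod ((t.2.1 * t.2.2.2.2 - 13 * t.2.2.1 * t.2.2.2.1) * aI t ^ 2) 169
    push_cast at h3 ⊢
    exact h3
  -- residue of `lE` modulo 13
  have hlo : (lE t * oi12 (wE t)) % 13 = 1 := by
    have hl : lE t % 13 ≠ 0 := by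
      intro h0
      obtain ⟨q, hq⟩ : ∃ q, lE t = 13 * q := ⟨lE t / 13, by omega⟩
      have h13 : (13 : ZMod 169) * 13 = 0 := by decide
      have hz : (((13 * (t.2.1 * t.2.2.2.2) : ℤ)) : ZMod 169) = 0 := by
        rw [hq] at e3
        push_cast at e3 ⊢
        linear_combination ((((t.2.2.1 : ℤ) : ZMod 169) * ((t.2.2.2.1 : ℤ) : ZMod 169)) +
          ((q : ℤ) : ZMod 169) * ((t.2.1 : ℤ) : ZMod 169) ^ 2) * h13 -
          13 * ((t.2.1 : ℤ) : ZMod 169) ^ 2 * e3 -
          13 * (((t.2.1 : ℤ) : ZMod 169) * ((t.2.2.2.2 : ℤ) : ZMod 169) -
            13 * ((t.2.2.1 : ℤ) : ZMod 169) * ((t.2.2.2.1 : ℤ) : ZMod 169)) *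
            (((t.2.1 : ℤ) : ZMod 169) * ((aI t : ℤ) : ZMod 169) + 1) * hI
      have hz2 := (ZMod.intCast_zmod_eq_zero_iff_dvd _ 169).1 hz
      have hz3 : (13 : ℤ) ∣ t.2.1 * t.2.2.2.2 := by
        push_cast at hz2
        generalize t.2.1 * t.2.2.2.2 = z at hz2 ⊢
        omega
      have hp : Prime (13 : ℤ) := by norm_num
      rcases hp.dvd_or_dvd hz3 with h | h
      · exact ha (Int.emod_eq_zero_of_dvd h)
      · exact hd (Int.emod_eq_zero_of_dvd h)
    have hl2 : 0 ≤ lE t % 13 := Int.emod_nonneg _ (by norm_num)
    have hl3 : lE t % 13 < 13 := Int.emod_lt_of_pos _ (by norm_num)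
    rw [Int.mul_emod]
    unfold wE
    generalize lE t % 13 = r at hl hl2 hl3 ⊢
    interval_cases r
    · exact absurd rfl hl
    all_goals decide
  have e4 : ((lE t : ℤ) : ZMod 169) * ((oi12 (wE t) : ℤ) : ZMod 169) = 1 + 13 * (mE t : ZMod 169) := by
    have h0 : 0 ≤ (lE t * oi12 (wE t)) % 169 := Int.emod_nonneg _ (by norm_num)
    have h1 : (lE t * oi12 (wE t)) % 169 = 1 + 13 * ((mE t : ℕ) : ℤ) := by unfold mE; omega
    have h3 := ZMod.intCast_mod (lE t * oi12 (wE t)) 169
    rw [show (((169 : ℕ) : ℤ)) = 169 from rfl, h1] at h3
    push_cast at h3 ⊢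
    exact h3.symm
  generalize ((t.2.1 : ℤ) : ZMod 169) = a at *
  generalize ((t.2.2.1 : ℤ) : ZMod 169) = b at *
  generalize ((t.2.2.2.1 : ℤ) : ZMod 169) = c at *
  generalize ((t.2.2.2.2 : ℤ) : ZMod 169) = d at *
  generalize ((aI t : ℤ) : ZMod 169) = I at *
  have ho := om_oi (wE t)
  generalize ((om12 (wE t) : ℤ) : ZMod 169) = o at *
  generalize ((oi12 (wE t) : ℤ) : ZMod 169) = oi at *
  generalize ((lE t : ℤ) : ZMod 169) = l at *
  generalize ((mE t : ℕ) : ZMod 169) = m at *
  rw [e1, e2]
  refine ⟨by linear_combination -b * hI, ?_, ?_⟩
  · linear_combination (-c) * hI - c * I * a * ho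
  · linear_combination (-d * (a * I + 1)) * hI - a * e3 - (l * a + 13 * b * c * I ^ 2 * a) * ho + o * a * e4

private theorem ew0 : ∀ w : Fin 12, (if om12 w % 13 = 1 then 0 else if om12 w % 13 = 2 then 1 else if om12 w % 13 = 4 then 2
  else if om12 w % 13 = 8 then 3 else if om12 w % 13 = 3 then 4 else if om12 w % 13 = 6 then 5
  else if om12 w % 13 = 12 then 6 else if om12 w % 13 = 11 then 7 else if om12 w % 13 = 9 then 8
  else if om12 w % 13 = 5 then 9 else if om12 w % 13 = 10 then 10 else 11 : Fin 12) = w := by
  decide

/-- uniqueness of the normal form -/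
private theorem nf_unique {t : Tm} (ha : t.2.1 % 13 ≠ 0) (w : Fin 12) {m g b : ℕ} (hm : m < 13) (hg : g < 169)
    (hb : b < 169)
    (h1 : ((t.2.2.1 : ℤ) : ZMod 169) = (b : ZMod 169) * ((t.2.1 : ℤ) : ZMod 169))
    (h2 : ((t.2.2.2.1 : ℤ) : ZMod 169) = (g : ZMod 169) * ((om12 w : ℤ) : ZMod 169) * ((t.2.1 : ℤ) : ZMod 169))
    (h3 : ((t.2.2.2.2 : ℤ) : ZMod 169) = (1 + 13 * ((m : ZMod 169) + (g : ZMod 169) * (b : ZMod 169))) *
      ((om12 w : ℤ) : ZMod 169) * ((t.2.1 : ℤ) : ZMod 169)) :
    wE t = w ∧ mE t = m ∧ gE t = g ∧ bE t = b := by
  have hI := aI_mul ha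
  have ho := om_oi w
  have eb : bE t = b := by
    unfold bE
    refine val_of hb ?_
    push_cast
    rw [h1]
    linear_combination (b : ZMod 169) * hI
  have el : ((lE t : ℤ) : ZMod 169) = (1 + 13 * (m : ZMod 169)) * ((om12 w : ℤ) : ZMod 169) := by
    have e3 : ((lE t : ℤ) : ZMod 169) = (((t.2.1 : ℤ) : ZMod 169) * ((t.2.2.2.2 : ℤ) : ZMod 169) -
        13 * ((t.2.2.1 : ℤ) : ZMod 169) * ((t.2.2.2.1 : ℤ) : ZMod 169)) * ((aI t : ℤ) : ZMod 169) ^ 2 := by
      unfold lE
      have h3 := ZMod.intCast_mod ((t.2.1 * t.2.2.2.2 - 13 * t.2.2.1 * t.2.2.2.1) * aI t ^ 2) 169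
      push_cast at h3 ⊢
      exact h3
    rw [e3, h1, h2, h3]
    linear_combination ((1 + 13 * (m : ZMod 169)) * ((om12 w : ℤ) : ZMod 169)) *
      (((t.2.1 : ℤ) : ZMod 169) * ((aI t : ℤ) : ZMod 169) + 1) * hI
  have h0l : 0 ≤ lE t := Int.emod_nonneg _ (by norm_num)
  have h1l : lE t < 169 := Int.emod_lt_of_pos _ (by norm_num)
  have el2 : lE t % 13 = om12 w % 13 := by
    have h : (((lE t - (1 + 13 * (m : ℤ)) * om12 w : ℤ)) : ZMod 169) = 0 := by
      push_cast
      rw [el]
      ring
    have h' := (ZMod.intCast_zmod_eq_zero_iff_dvd _ 169).1 h
    push_cast at h'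
    have : lE t - (1 + 13 * (m : ℤ)) * om12 w = lE t - om12 w - 13 * ((m : ℤ) * om12 w) := by ring
    rw [this] at h'
    generalize (m : ℤ) * om12 w = z at h'
    omega
  have ew : wE t = w := by
    unfold wE
    rw [el2]
    exact ew0 w
  have em : mE t = m := by
    have h := val_of (z := lE t * oi12 w) (n := 1 + 13 * m) (by omega) (by
      push_cast
      rw [el]
      linear_combination (1 + 13 * (m : ZMod 169)) * ho)
    have h0 : 0 ≤ (lE t * oi12 w) % 169 := Int.emod_nonneg _ (by norm_num)
    unfold mE
    rw [ew]
    omega
  have eg : gE t = g := by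
    unfold gE
    rw [ew]
    refine val_of hg ?_
    push_cast
    rw [h2]
    linear_combination (g : ZMod 169) * ((om12 w : ℤ) : ZMod 169) * ((oi12 w : ℤ) : ZMod 169) * hI +
      (g : ZMod 169) * ho
  exact ⟨ew, em, eg, eb⟩

/-- the identities of the product, in a commutative ring with `13 * 13 = 0` -/
private theorem prod_ids {R : Type} [CommRing R] {a b c d a' b' c' d' β γ m ω β' γ' m' ω' i e : R}
    (h13 : (13 : R) * 13 = 0) (hi : ω' * i = 1) (he : e = β * ω')
    (h1 : b = β * a) (h2 : c = γ * ω * a) (h3 : d = (1 + 13 * (m + γ * β)) * ω * a)
    (h1' : b' = β' * a') (h2' : c' = γ' * ω' * a') (h3' : d' = (1 + 13 * (m' + γ' * β')) * ω' * a') :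
    a * b' + b * d' = (β' + e * (1 + 13 * m') - 13 * (e * e) * γ') * (a * a' + 13 * b * c') ∧
    c * a' + d * c' = (γ * i + (1 + 13 * m) * γ' - 13 * e * (γ' * γ')) * (ω * ω') * (a * a' + 13 * b * c') ∧
    13 * c * b' + d * d' = (1 + 13 * ((m + m' - 2 * e * γ') +
      (γ * i + (1 + 13 * m) * γ' - 13 * e * (γ' * γ')) * (β' + e * (1 + 13 * m') - 13 * (e * e) * γ'))) *
      (ω * ω') * (a * a' + 13 * b * c') := by
  subst he h1 h2 h3 h1' h2' h3'
  refine ⟨?_, ?_, ?_⟩
  · linear_combination (-(a * a') * ((β * ω') ^ 2 * γ' * m' - (β * ω') ^ 3 * γ' ^ 2)) * h13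
  · linear_combination (-(a * a' * ω) * γ * (1 + 13 * (β * ω') * γ')) * hi -
      a * a' * ω * ((β * ω') * m * γ' ^ 2 * ω' - (β * ω') ^ 2 * γ' ^ 3 * ω') * h13
  · linear_combination (a * a' * ω * ω' * ((m + γ * β) * (m' + γ' * β') - ((β * ω') * γ' *
      ((m + m' - 2 * (β * ω') * γ') + (γ * i + (1 + 13 * m) * γ' - 13 * (β * ω') * (γ' * γ')) *
        (β' + (β * ω') * (1 + 13 * m') - 13 * ((β * ω') * (β * ω')) * γ')) +
      (γ * i + γ') * ((β * ω') * m' - (β * ω') ^ 2 * γ') + (m * γ' - (β * ω') * γ' ^ 2) * (β' + β * ω') +
      13 * (m * γ' - (β * ω') * γ' ^ 2) * ((β * ω') * m' - (β * ω') ^ 2 * γ')))) * h13 -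
      13 * a * a' * ω * γ * (β' + β * ω') * hi

private theorem unit_ne {a : ℤ} (h : IsUnit ((a : ℤ) : ZMod 169)) : a % 13 ≠ 0 := by
  rw [ZMod.coe_int_isUnit_iff_isCoprime] at h
  intro h0
  obtain ⟨u, v, huv⟩ := h
  obtain ⟨q, hq⟩ : ∃ q, a = 13 * q := ⟨a / 13, by omega⟩
  have : (13 : ℤ) ∣ 1 := ⟨u * 13 + v * q, by rw [← huv, hq]; push_cast; ring⟩
  norm_num at this

private theorem m169 (n : ℕ) : ((n % 169 : ℕ) : ZMod 169) = (n : ZMod 169) := ZMod.natCast_mod n 169

/-- thirteen times a residue modulo thirteen -/
private theorem el_cast (n : ℕ) : (13 : ZMod 169) * ((n % 13 : ℕ) : ZMod 169) = 13 * (n : ZMod 169) := by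
  have h : n = 13 * (n / 13) + n % 13 := by omega
  have h2 : (n : ZMod 169) = 13 * ((n / 13 : ℕ) : ZMod 169) + ((n % 13 : ℕ) : ZMod 169) := by
    conv_lhs => rw [h]
    push_cast
    ring
  rw [h2]
  have h13 : (13 : ZMod 169) * 13 = 0 := by decide
  linear_combination (-((n / 13 : ℕ) : ZMod 169)) * h13

theorem comb_cd {t t' : Tm} (h : Gd t) (h' : Gd t') : comb (cd t) (cd t') = cd (mulT t t') := by
  have h13 : (13 : ZMod 169) * 13 = 0 := by decide
  obtain ⟨n1, n2, n3⟩ := nf_of h
  obtain ⟨p1, p2, p3⟩ := nf_of h'
  have hi := om_oi (wE t')
  -- the entries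
  set x := cd t with hx
  set y := cd t' with hy
  have hce : ((ce x y : ℕ) : ZMod 169) = (bE t : ZMod 169) * ((om12 (wE t') : ℤ) : ZMod 169) := by
    have : ce x y = (fb x * mN (fw y)) % 169 := rfl
    rw [this, m169, hx, hy, fb_cd, fw_cd]
    push_cast
    rw [mN_eq]
  have hr : (13 : ZMod 169) * ((cr x y : ℕ) : ZMod 169) = 13 * ((ce x y : ℕ) : ZMod 169) := el_cast _
  have hrl : cr x y < 13 := Nat.mod_lt _ (by norm_num)
  have h0 : (13 : ZMod 169) * ((c0 y : ℕ) : ZMod 169) = 13 * (gE t' : ZMod 169) := by
    have := el_cast (fg y)
    rw [hy, fg_cd] at this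
    have e : c0 y = gE t' % 13 := by
      show fg y % 13 = _
      rw [hy, fg_cd]
    rw [e]
    exact this
  have hm : (13 : ZMod 169) * ((cm x y : ℕ) : ZMod 169) = 13 * ((mE t : ZMod 169) + (mE t' : ZMod 169) -
      2 * ((bE t : ZMod 169) * ((om12 (wE t') : ℤ) : ZMod 169)) * (gE t' : ZMod 169)) := by
    have e : cm x y = ((fm x + fm y) + (26 - 2 * cr x y) * c0 y) % 13 := rfl
    rw [e, el_cast, hx, hy, fm_cd, fm_cd, ← hx, ← hy]
    push_cast [Nat.cast_sub (show 2 * cr x y ≤ 26 by omega)]
    linear_combination (2 * ((c0 y : ℕ) : ZMod 169)) * h13 - 2 * ((c0 y : ℕ) : ZMod 169) * hr -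
      2 * ((ce x y : ℕ) : ZMod 169) * h0 - 26 * (gE t' : ZMod 169) * hce
  have hg : ((cg x y : ℕ) : ZMod 169) = (gE t : ZMod 169) * ((oi12 (wE t') : ℤ) : ZMod 169) +
      (1 + 13 * (mE t : ZMod 169)) * (gE t' : ZMod 169) - 13 * ((bE t : ZMod 169) * ((om12 (wE t') : ℤ) : ZMod 169)) *
        ((gE t' : ZMod 169) * (gE t' : ZMod 169)) := by
    have e : cg x y = (fg x * oN (fw y) + ((1 + 13 * fm x) * fg y + 13 * (13 - cr x y) * (c0 y * c0 y))) % 169 := rfl
    rw [e, m169, hx, hy, fg_cd, fw_cd, fm_cd, fg_cd, ← hx, ← hy]
    push_cast [Nat.cast_sub (show cr x y ≤ 13 by omega)]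
    rw [oN_eq']
    linear_combination (((c0 y : ℕ) : ZMod 169) * ((c0 y : ℕ) : ZMod 169)) * h13 -
      ((c0 y : ℕ) : ZMod 169) * ((c0 y : ℕ) : ZMod 169) * hr -
      ((ce x y : ℕ) : ZMod 169) * (((c0 y : ℕ) : ZMod 169) + (gE t' : ZMod 169)) * h0 -
      13 * (gE t' : ZMod 169) * (gE t' : ZMod 169) * hce
  have hb : ((cb x y : ℕ) : ZMod 169) = (bE t' : ZMod 169) + ((bE t : ZMod 169) * ((om12 (wE t') : ℤ) : ZMod 169)) *
      (1 + 13 * (mE t' : ZMod 169)) - 13 * (((bE t : ZMod 169) * ((om12 (wE t') : ℤ) : ZMod 169)) *
        ((bE t : ZMod 169) * ((om12 (wE t') : ℤ) : ZMod 169))) * (gE t' : ZMod 169) := by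
    have e : cb x y = (fb y + (ce x y * (1 + 13 * fm y) + 13 * (169 - cr x y * cr x y) * c0 y)) % 169 := rfl
    have hl2 : cr x y * cr x y ≤ 169 := by nlinarith
    rw [e, m169, hx, hy, fb_cd, fm_cd, ← hx, ← hy]
    push_cast [Nat.cast_sub hl2]
    linear_combination 13 * ((c0 y : ℕ) : ZMod 169) * h13 + (1 + 13 * (mE t' : ZMod 169)) * hce -
      ((c0 y : ℕ) : ZMod 169) * (((cr x y : ℕ) : ZMod 169) + ((ce x y : ℕ) : ZMod 169)) * hr -
      ((ce x y : ℕ) : ZMod 169) ^ 2 * h0 - 13 * (gE t' : ZMod 169) * (((ce x y : ℕ) : ZMod 169) +
        (bE t : ZMod 169) * ((om12 (wE t') : ℤ) : ZMod 169)) * hce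
  obtain ⟨q1, q2, q3⟩ := prod_ids h13 hi rfl n1 n2 n3 p1 p2 p3
  have hA : (mulT t t').2.1 % 13 ≠ 0 := by
    show (t.2.1 * t'.2.1 + 13 * t.2.2.1 * t'.2.2.2.1) % 13 ≠ 0
    intro h0
    have hd : (13 : ℤ) ∣ t.2.1 * t'.2.1 := by
      have : t.2.1 * t'.2.1 + 13 * t.2.2.1 * t'.2.2.2.1 = t.2.1 * t'.2.1 + 13 * (t.2.2.1 * t'.2.2.2.1) := by ring
      rw [this] at h0
      generalize t.2.1 * t'.2.1 = z at h0 ⊢
      generalize t.2.2.1 * t'.2.2.2.1 = z' at h0
      omega
    have hp : Prime (13 : ℤ) := by norm_num
    rcases hp.dvd_or_dvd hd with h1 | h1
    · exact h.1 (Int.emod_eq_zero_of_dvd h1)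
    · exact h'.1 (Int.emod_eq_zero_of_dvd h1)
  have hw2 := om_add (wE t) (wE t')
  obtain ⟨u1, u2, u3, u4⟩ := nf_unique (t := mulT t t') hA ⟨((wE t).val + (wE t').val) % 12, Nat.mod_lt _ (by norm_num)⟩
    (m := cm x y) (g := cg x y) (b := cb x y) (Nat.mod_lt _ (by norm_num)) (Nat.mod_lt _ (by norm_num))
    (Nat.mod_lt _ (by norm_num))
    (by
      show ((t.2.1 * t'.2.2.1 + t.2.2.1 * t'.2.2.2.2 : ℤ) : ZMod 169) =
        (cb x y : ZMod 169) * ((t.2.1 * t'.2.1 + 13 * t.2.2.1 * t'.2.2.2.1 : ℤ) : ZMod 169)
      push_cast
      rw [hb]
      exact q1)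
    (by
      show ((t.2.2.2.1 * t'.2.1 + t.2.2.2.2 * t'.2.2.2.1 : ℤ) : ZMod 169) = (cg x y : ZMod 169) * _ *
        ((t.2.1 * t'.2.1 + 13 * t.2.2.1 * t'.2.2.2.1 : ℤ) : ZMod 169)
      rw [hw2, hg]
      push_cast
      exact q2)
    (by
      show ((13 * t.2.2.2.1 * t'.2.2.1 + t.2.2.2.2 * t'.2.2.2.2 : ℤ) : ZMod 169) =
        (1 + 13 * ((cm x y : ZMod 169) + (cg x y : ZMod 169) * (cb x y : ZMod 169))) * _ *
        ((t.2.1 * t'.2.1 + 13 * t.2.2.1 * t'.2.2.2.1 : ℤ) : ZMod 169)
      have e : (1 + 13 * ((cm x y : ZMod 169) + (cg x y : ZMod 169) * (cb x y : ZMod 169)) : ZMod 169) =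
        1 + 13 * (cm x y : ZMod 169) + 13 * ((cg x y : ZMod 169) * (cb x y : ZMod 169)) := by ring
      rw [hw2, e, hm, hg, hb]
      push_cast
      rw [q3]
      ring)
  have e1 : rk (mulT t t').1 = cK x y := by
    have h1 := rk_eq (mulT t t').1
    have h2 : cK x y = (rk t.1 * rk t'.1) % 13 := by
      show (fK x * fK y) % 13 = _
      rw [hx, hy, fK_cd, fK_cd]
    have h3 : (((rk t.1 * rk t'.1 % 13 : ℕ)) : ℤ) = (t.1 * t'.1) % 13 := by
      push_cast
      rw [rk_eq, rk_eq, ← Int.mul_emod]
    rw [h2]
    have h4 : ((rk (mulT t t').1 : ℕ) : ℤ) = (t.1 * t'.1) % 13 := h1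
    omega
  have e2 : cw x y = ((wE t).val + (wE t').val) % 12 := by
    show (fw x + fw y) % 12 = _
    rw [hx, hy, fw_cd, fw_cd]
  unfold comb cd
  rw [u1, u2, u3, u4, e1, e2]

theorem Gd_mul {t t' : Tm} (h : Gd t) (h' : Gd t') : Gd (mulT t t') := by
  have hp : Prime (13 : ℤ) := by norm_num
  constructor
  · show (t.2.1 * t'.2.1 + 13 * t.2.2.1 * t'.2.2.2.1) % 13 ≠ 0
    intro h0
    have hd : (13 : ℤ) ∣ t.2.1 * t'.2.1 := by
      have : t.2.1 * t'.2.1 + 13 * t.2.2.1 * t'.2.2.2.1 = t.2.1 * t'.2.1 + 13 * (t.2.2.1 * t'.2.2.2.1) := by ring
      rw [this] at h0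
      generalize t.2.1 * t'.2.1 = z at h0 ⊢
      generalize t.2.2.1 * t'.2.2.2.1 = z' at h0
      omega
    rcases hp.dvd_or_dvd hd with h1 | h1
    · exact h.1 (Int.emod_eq_zero_of_dvd h1)
    · exact h'.1 (Int.emod_eq_zero_of_dvd h1)
  · show (13 * t.2.2.2.1 * t'.2.2.1 + t.2.2.2.2 * t'.2.2.2.2) % 13 ≠ 0
    intro h0
    have hd : (13 : ℤ) ∣ t.2.2.2.2 * t'.2.2.2.2 := by
      have : 13 * t.2.2.2.1 * t'.2.2.1 + t.2.2.2.2 * t'.2.2.2.2 =
        t.2.2.2.2 * t'.2.2.2.2 + 13 * (t.2.2.2.1 * t'.2.2.1) := by ring
      rw [this] at h0
      generalize t.2.2.2.2 * t'.2.2.2.2 = z at h0 ⊢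
      generalize t.2.2.2.1 * t'.2.2.1 = z' at h0
      omega
    rcases hp.dvd_or_dvd hd with h1 | h1
    · exact h.2 (Int.emod_eq_zero_of_dvd h1)
    · exact h'.2 (Int.emod_eq_zero_of_dvd h1)

/-! ### Lists of codes -/

theorem lcd_eq (L : List Tm) (k : List ℕ → ℕ) : lcd L k = k (L.map cd) := by
  induction L generalizing k with
  | nil => rfl
  | cons t L ih =>
    show sq (tcode t) (fun c => lcd L fun A => k (c :: A)) = _
    rw [sq_eq, ih, tcode_eq]
    rfl

theorem ap_eq (A B : List ℕ) : ap A B = A ++ B := by
  induction A with
  | nil => rfl
  | cons h A ih =>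
    show h :: ap A B = _
    rw [ih]
    rfl

theorem mp_eq (f : ℕ → ℕ) (B : List ℕ) (k : List ℕ → ℕ) : mp f B k = k (B.map f) := by
  induction B generalizing k with
  | nil => rfl
  | cons t L ih =>
    show sq (f t) (fun c => mp f L fun A => k (c :: A)) = _
    rw [sq_eq, ih]
    rfl

theorem pr_eq (A B : List ℕ) (k : List ℕ → ℕ) : pr A B k = k (A.flatMap fun x => B.map (comb x)) := by
  induction A generalizing k with
  | nil => rfl
  | cons x A ih =>
    show mp (comb x) B (fun L => pr A B fun L' => k (ap L L')) = _
    rw [mp_eq, ih, ap_eq, List.flatMap_cons]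

/-- fields below their bounds -/
def Vd (c : ℕ) : Prop := ∃ K w m g b : ℕ, K < 13 ∧ w < 12 ∧ m < 13 ∧ g < 169 ∧ b < 169 ∧ c = mk K w m g b

theorem Vd.fields {c : ℕ} (h : Vd c) : fK c < 13 ∧ fw c < 12 ∧ fm c < 13 ∧ fg c < 169 ∧ fb c < 169 ∧
    mk (fK c) (fw c) (fm c) (fg c) (fb c) = c := by
  obtain ⟨K, w, m, g, b, h1, h2, h3, h4, h5, rfl⟩ := h
  rw [fK_mk (by omega), fw_mk (by omega) (by omega), fm_mk (by omega) (by omega) (by omega),
    fg_mk (by omega) (by omega) (by omega) (by omega), fb_mk (by omega) (by omega) (by omega) (by omega)]
  exact ⟨h1, h2, h3, h4, h5, rfl⟩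

theorem Vd_cd (t : Tm) : Vd (cd t) := ⟨_, _, _, _, _, rk_lt _, (wE t).isLt, mE_lt t, gE_lt t, bE_lt t, rfl⟩

theorem Vd_comb (x y : ℕ) : Vd (comb x y) :=
  ⟨_, _, _, _, _, Nat.mod_lt _ (by norm_num), Nat.mod_lt _ (by norm_num), Nat.mod_lt _ (by norm_num),
    Nat.mod_lt _ (by norm_num), Nat.mod_lt _ (by norm_num), rfl⟩

theorem Vd_scC (r : ℕ) {c : ℕ} (h : Vd c) : Vd (scC r c) := by
  obtain ⟨h1, h2, h3, h4, h5, -⟩ := h.fields
  exact ⟨_, _, _, _, _, Nat.mod_lt _ (by norm_num), h2, h3, h4, h5, rfl⟩

theorem scC_cd (c : ℤ) (t : Tm) : scC (rk c) (cd t) = cd (c * t.1, t.2) := by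
  unfold scC
  rw [fK_cd, fw_cd, fm_cd, fg_cd, fb_cd]
  have e : Nat.mod (Nat.mul (rk c) (rk t.1)) 13 = rk (c * t.1) := by
    show (rk c * rk t.1) % 13 = rk (c * t.1)
    have h3 : (((rk c * rk t.1 % 13 : ℕ)) : ℤ) = ((rk (c * t.1) : ℕ) : ℤ) := by
      push_cast
      rw [rk_eq, rk_eq, rk_eq, ← Int.mul_emod]
    exact_mod_cast h3
  rw [e]
  rfl

/-! ### Expressions -/

theorem gd_spec (e : Ex) : e.gd = true → ∀ t ∈ e.toL, Gd t := by
  induction e with
  | lst L =>
    intro h
    induction L with
    | nil => intro t ht; exact absurd ht (List.not_mem_nil)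
    | cons t L ih =>
      have h' : and (Nat.ble 1 (Nat.mul (rk t.2.1) (rk t.2.2.2.2))) (Ex.gd (.lst L)) = true := h
      rw [Bool.and_eq_true] at h'
      intro s hs
      rcases List.mem_cons.1 hs with rfl | hs
      · have h1 : 1 ≤ rk s.2.1 * rk s.2.2.2.2 := Nat.le_of_ble_eq_true h'.1
        have h2 := rk_eq s.2.1
        have h3 := rk_eq s.2.2.2.2
        constructor
        · intro h0
          rw [h0] at h2
          have : rk s.2.1 = 0 := by exact_mod_cast h2
          rw [this] at h1
          omega
        · intro h0
          rw [h0] at h3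
          have : rk s.2.2.2.2 = 0 := by exact_mod_cast h3
          rw [this] at h1
          omega
      · exact ih h'.2 s hs
  | app a b iha ihb =>
    intro h
    have h' : and (Ex.gd a) (Ex.gd b) = true := h
    rw [Bool.and_eq_true] at h'
    intro t ht
    rcases List.mem_append.1 ht with ht | ht
    · exact iha h'.1 t ht
    · exact ihb h'.2 t ht
  | scl c a iha =>
    intro h t ht
    obtain ⟨s, hs, rfl⟩ := List.mem_map.1 ht
    exact iha h s hs
  | mul a b iha ihb =>
    intro h
    have h' : and (Ex.gd a) (Ex.gd b) = true := h
    rw [Bool.and_eq_true] at h'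
    intro t ht
    obtain ⟨s, hs, ht⟩ := List.mem_flatMap.1 ht
    obtain ⟨s', hs', rfl⟩ := List.mem_map.1 ht
    exact Gd_mul (iha h'.1 s hs) (ihb h'.2 s' hs')

theorem gd_app {a b : Ex} (h : (Ex.app a b).gd = true) : a.gd = true ∧ b.gd = true := by
  have h' : and (Ex.gd a) (Ex.gd b) = true := h
  rwa [Bool.and_eq_true] at h'

theorem gd_mul {a b : Ex} (h : (Ex.mul a b).gd = true) : a.gd = true ∧ b.gd = true := by
  have h' : and (Ex.gd a) (Ex.gd b) = true := h
  rwa [Bool.and_eq_true] at h'

theorem mul_map {L L' : List Tm} (h : ∀ t ∈ L, Gd t) (h' : ∀ t ∈ L', Gd t) :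
    ((L.map cd).flatMap fun x => (L'.map cd).map (comb x)) = (mulL L L').map cd := by
  unfold mulL
  rw [List.map_flatMap, List.flatMap_map]
  refine List.flatMap_congr fun t ht => ?_
  rw [List.map_map, List.map_map]
  refine List.map_congr_left fun t' ht' => ?_
  exact comb_cd (h t ht) (h' t' ht')

theorem cods_eq (e : Ex) : e.gd = true → ∀ k : List ℕ → ℕ, cods e k = k (e.toL.map cd) := by
  induction e with
  | lst L => intro _ k; exact lcd_eq L k
  | app a b iha ihb =>
    intro h k
    obtain ⟨ha, hb⟩ := gd_app h
    show cods a (fun A => cods b fun B => k (ap A B)) = _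
    rw [iha ha, ihb hb, ap_eq, ← List.map_append]
    rfl
  | scl c a iha =>
    intro h k
    show cods a (fun A => mp (scC (rk c)) A k) = _
    rw [iha h, mp_eq, List.map_map]
    show _ = k ((sclL c a.toL).map cd)
    unfold sclL
    rw [List.map_map]
    congr 1
    exact List.map_congr_left fun t _ => scC_cd c t
  | mul a b iha ihb =>
    intro h k
    obtain ⟨ha, hb⟩ := gd_mul h
    show cods a (fun A => cods b fun B => pr A B k) = _
    rw [iha ha, ihb hb, pr_eq, mul_map (gd_spec a ha) (gd_spec b hb)]
    rfl

theorem cnt_eq (e : Ex) : e.cnt = e.toL.length := by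
  induction e with
  | lst L =>
    induction L with
    | nil => rfl
    | cons t L ih =>
      show Nat.succ (Ex.cnt (.lst L)) = _
      rw [ih]
      rfl
  | app a b iha ihb =>
    show Ex.cnt a + Ex.cnt b = (a.toL ++ b.toL).length
    rw [iha, ihb, List.length_append]
  | scl c a iha =>
    show Ex.cnt a = (sclL c a.toL).length
    unfold sclL
    rw [iha, List.length_map]
  | mul a b iha ihb =>
    show Ex.cnt a * Ex.cnt b = (mulL a.toL b.toL).length
    unfold mulL
    rw [iha, ihb, List.length_flatMap]
    simp

/-! ### Sums -/

/-- The value of a code. -/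
noncomputable def vc (c : ℕ) : ℕ := vF (fK c) (fm c) (fg c) (fb c)

/-- The sum of a list of codes. -/
noncomputable def Sg (A : List ℕ) : ℕ := (A.map fun c => vc c * X450 ^ fw c).sum

private theorem X450_eq : X450 = 2 ^ 14400 := by
  unfold X450 X1
  show 4294967296 ^ 450 = 2 ^ 14400
  rw [show (4294967296 : ℕ) = 2 ^ 32 from by norm_num, ← pow_mul]

private theorem shl_eq (v w : ℕ) : Nat.shiftLeft v (Nat.mul 14400 w) = v * X450 ^ w := by
  show v <<< (14400 * w) = _
  rw [Nat.shiftLeft_eq, X450_eq, ← pow_mul]

private theorem S12_eq (f : ℕ → ℕ) : S12 f = ∑ w ∈ Finset.range 12, f w := by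
  have h : S12 f = f 0 + (f 1 + (f 2 + (f 3 + (f 4 + (f 5 + (f 6 + (f 7 + (f 8 + (f 9 + (f 10 + f 11)))))))))) := rfl
  rw [h]
  simp only [Finset.sum_range_succ, Finset.sum_range_zero]
  ring

private theorem bsum_cons (w c : ℕ) (A : List ℕ) :
    bsum w (c :: A) = (if fw c = w then vc c else 0) + bsum w A := by
  have h : bsum w (c :: A) = @Bool.rec (fun _ => ℕ) (bsum w A) (vc c + bsum w A) (Nat.beq (fw c) w) := rfl
  rw [h]
  cases hb : Nat.beq (fw c) w
  · rw [if_neg (Nat.ne_of_beq_eq_false hb), zero_add]
  · rw [if_pos (Nat.eq_of_beq_eq_true hb)]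

private theorem ite_sum (f : ℕ → ℕ) {n : ℕ} (hn : n < 12) :
    ∑ w ∈ Finset.range 12, (if n = w then f w else 0) = f n := by
  rw [Finset.sum_ite_eq, if_pos (Finset.mem_range.2 hn)]

private theorem lsum_eq (A : List ℕ) (h : ∀ c ∈ A, Vd c) : lsum A = Sg A := by
  unfold lsum
  rw [S12_eq]
  simp only [shl_eq]
  induction A with
  | nil => 
    have e : ∀ w, bsum w [] = 0 := fun w => rfl
    simp [e, Sg]
  | cons c A ih =>
    have ih' := ih fun d hd => h d (List.mem_cons_of_mem _ hd)
    have hc := (h c List.mem_cons_self).fields.2.1
    simp only [bsum_cons, add_mul, Finset.sum_add_distrib, ih']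
    have e : ∑ w ∈ Finset.range 12, (if fw c = w then vc c else 0) * X450 ^ w = vc c * X450 ^ fw c := by
      rw [← ite_sum (fun w => vc c * X450 ^ w) hc]
      refine Finset.sum_congr rfl fun w _ => ?_
      split_ifs <;> simp
    rw [e]
    rfl

private theorem fltc_eq (w : ℕ) (B : List ℕ) (k : List ℕ → ℕ) : fltc w B k = k (B.filter fun y => fw y = w) := by
  induction B generalizing k with
  | nil => rfl
  | cons y B ih =>
    have h : fltc w (y :: B) k = @Bool.rec (fun _ => ℕ) (fltc w B k) (fltc w B fun L => k (y :: L))
      (Nat.beq (fw y) w) := rfl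
    rw [h]
    cases hb : Nat.beq (fw y) w
    · have := Nat.ne_of_beq_eq_false hb
      rw [List.filter_cons_of_neg (by simpa using this)]
      exact ih k
    · have := Nat.eq_of_beq_eq_true hb
      rw [List.filter_cons_of_pos (by simpa using this)]
      exact ih _

private theorem cK_lt (x y : ℕ) : cK x y < 13 := Nat.mod_lt _ (by norm_num)
private theorem cw_lt (x y : ℕ) : cw x y < 12 := Nat.mod_lt _ (by norm_num)
private theorem cm_lt (x y : ℕ) : cm x y < 13 := Nat.mod_lt _ (by norm_num)
private theorem cg_lt (x y : ℕ) : cg x y < 169 := Nat.mod_lt _ (by norm_num)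

private theorem isum_eq (x : ℕ) (B : List ℕ) : isum x B = (B.map fun y => vc (comb x y)).sum := by
  induction B with
  | nil => rfl
  | cons y B ih =>
    have h : isum x (y :: B) = vF (cK x y) (cm x y) (cg x y) (cb x y) + isum x B := rfl
    have hv : vc (comb x y) = vF (cK x y) (cm x y) (cg x y) (cb x y) := by
      unfold vc comb
      have b1 := cK_lt x y
      have b2 := cw_lt x y
      have b3 := cm_lt x y
      have b4 := cg_lt x y
      rw [fK_mk (by omega), fm_mk (by omega) (by omega) (by omega), fg_mk (by omega) (by omega) (by omega) (by omega),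
        fb_mk (by omega) (by omega) (by omega) (by omega)]
    rw [h, ih, List.map_cons, List.sum_cons, hv]

private theorem fw_comb (x y : ℕ) : fw (comb x y) = (fw x + fw y) % 12 := by
  unfold comb
  have b1 := cK_lt x y
  have b2 := cw_lt x y
  rw [fw_mk (by omega) (by omega)]
  rfl

private theorem xsum_eq (w : ℕ) (A B : List ℕ) :
    xsum w A B = (A.map fun x => isum x B * X450 ^ ((fw x + w) % 12)).sum := by
  induction A with
  | nil => rfl
  | cons x A ih =>
    have h : xsum w (x :: A) B = Nat.shiftLeft (isum x B) (Nat.mul 14400 ((fw x + w) % 12)) + xsum w A B := rfl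
    rw [h, ih, shl_eq]
    rfl

private theorem inner_eq (x : ℕ) (B : List ℕ) (h : ∀ y ∈ B, Vd y) :
    ∑ w ∈ Finset.range 12, ((B.filter fun y => fw y = w).map fun y => vc (comb x y)).sum *
      X450 ^ ((fw x + w) % 12) = Sg (B.map (comb x)) := by
  induction B with
  | nil => simp [Sg]
  | cons y B ih =>
    have ih' := ih fun d hd => h d (List.mem_cons_of_mem _ hd)
    have hc := (h y List.mem_cons_self).fields.2.1
    have e : ∀ w, (((y :: B).filter fun y => fw y = w).map fun y => vc (comb x y)).sum *
        X450 ^ ((fw x + w) % 12) = (if fw y = w then vc (comb x y) * X450 ^ ((fw x + w) % 12) else 0) +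
        ((B.filter fun y => fw y = w).map fun y => vc (comb x y)).sum * X450 ^ ((fw x + w) % 12) := by
      intro w
      by_cases hw : fw y = w
      · rw [List.filter_cons_of_pos (by simpa using hw), if_pos hw, List.map_cons, List.sum_cons, add_mul]
      · rw [List.filter_cons_of_neg (by simpa using hw), if_neg hw, zero_add]
    simp only [e, Finset.sum_add_distrib, ih']
    rw [ite_sum (fun w => vc (comb x y) * X450 ^ ((fw x + w) % 12)) hc, ← fw_comb]
    rfl

private theorem Sg_append (A B : List ℕ) : Sg (A ++ B) = Sg A + Sg B := by
  unfold Sg
  rw [List.map_append, List.sum_append]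

private theorem psum_eq (A B : List ℕ) (h : ∀ y ∈ B, Vd y) :
    psum A B = Sg (A.flatMap fun x => B.map (comb x)) := by
  unfold psum
  rw [S12_eq]
  simp only [fltc_eq, xsum_eq]
  induction A with
  | nil => simp [Sg]
  | cons x A ih =>
    simp only [List.map_cons, List.sum_cons, Finset.sum_add_distrib, isum_eq] at ih ⊢
    rw [List.flatMap_cons, Sg_append, ← inner_eq x B h, ih]

private theorem scC_comp (r s c : ℕ) (h : Vd c) : scC r (scC s c) = scC (r * s % 13) c := by
  obtain ⟨h1, h2, h3, h4, h5, -⟩ := h.fields
  have e : ∀ K < 13, fK (mk K (fw c) (fm c) (fg c) (fb c)) = K ∧ fw (mk K (fw c) (fm c) (fg c) (fb c)) = fw c ∧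
      fm (mk K (fw c) (fm c) (fg c) (fb c)) = fm c ∧ fg (mk K (fw c) (fm c) (fg c) (fb c)) = fg c ∧
      fb (mk K (fw c) (fm c) (fg c) (fb c)) = fb c := fun K hK =>
    ⟨fK_mk (by omega), fw_mk (by omega) (by omega), fm_mk (by omega) (by omega) (by omega),
      fg_mk (by omega) (by omega) (by omega) (by omega), fb_mk (by omega) (by omega) (by omega) (by omega)⟩
  have h6 : Nat.mod (Nat.mul s (fK c)) 13 < 13 := Nat.mod_lt _ (by norm_num)
  obtain ⟨e1, e2, e3, e4, e5⟩ := e _ h6
  unfold scC
  rw [e1, e2, e3, e4, e5]
  congr 1
  show r * (s * fK c % 13) % 13 = (r * s % 13) * fK c % 13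
  rw [Nat.mul_mod, Nat.mod_mod, ← Nat.mul_mod, Nat.mul_mod (r * s % 13), Nat.mod_mod, ← Nat.mul_mod, mul_assoc]

private theorem mod_assoc (r a b : ℕ) : (r * a % 13) * b % 13 = r * (a * b % 13) % 13 := by
  have h1 : r * a % 13 * b ≡ r * a * b [MOD 13] := (Nat.mod_modEq (r * a) 13).mul_right b
  have h2 : r * (a * b % 13) ≡ r * (a * b) [MOD 13] := (Nat.mod_modEq (a * b) 13).mul_left r
  rw [mul_assoc] at h1
  exact h1.trans h2.symm

private theorem comb_scC (r x y : ℕ) (h : Vd x) : comb (scC r x) y = scC r (comb x y) := by
  obtain ⟨h1, h2, h3, h4, h5, -⟩ := h.fields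
  have h6 : Nat.mod (Nat.mul r (fK x)) 13 < 13 := Nat.mod_lt _ (by norm_num)
  have e1 : fK (scC r x) = Nat.mod (Nat.mul r (fK x)) 13 := fK_mk (by omega)
  have e2 : fw (scC r x) = fw x := fw_mk (by omega) (by omega)
  have e3 : fm (scC r x) = fm x := fm_mk (by omega) (by omega) (by omega)
  have e4 : fg (scC r x) = fg x := fg_mk (by omega) (by omega) (by omega) (by omega)
  have e5 : fb (scC r x) = fb x := fb_mk (by omega) (by omega) (by omega) (by omega)
  have b1 := cK_lt x y
  have b2 := cw_lt x y
  have b3 := cm_lt x y
  have b4 := cg_lt x y
  have g1 : fK (comb x y) = cK x y := fK_mk (by omega)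
  have g2 : fw (comb x y) = cw x y := fw_mk (by omega) (by omega)
  have g3 : fm (comb x y) = cm x y := fm_mk (by omega) (by omega) (by omega)
  have g4 : fg (comb x y) = cg x y := fg_mk (by omega) (by omega) (by omega) (by omega)
  have g5 : fb (comb x y) = cb x y := fb_mk (by omega) (by omega) (by omega) (by omega)
  have k1 : cK (scC r x) y = Nat.mod (Nat.mul r (fK (comb x y))) 13 := by
    rw [g1]
    unfold cK
    rw [e1]
    exact mod_assoc r (fK x) (fK y)
  have k2 : cw (scC r x) y = cw x y := by unfold cw; rw [e2]
  have k0 : ce (scC r x) y = ce x y := by unfold ce; rw [e5]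
  have k00 : cr (scC r x) y = cr x y := by unfold cr; rw [k0]
  have k3 : cm (scC r x) y = cm x y := by unfold cm; rw [e3, k00]
  have k4 : cg (scC r x) y = cg x y := by unfold cg; rw [e4, e3, k00]
  have k5 : cb (scC r x) y = cb x y := by unfold cb; rw [k0, k00]
  have hl : comb (scC r x) y = mk (cK (scC r x) y) (cw (scC r x) y) (cm (scC r x) y) (cg (scC r x) y)
    (cb (scC r x) y) := rfl
  have hr : scC r (comb x y) = mk (Nat.mod (Nat.mul r (fK (comb x y))) 13) (fw (comb x y)) (fm (comb x y))
    (fg (comb x y)) (fb (comb x y)) := rfl
  rw [hl, hr, k1, k2, k3, k4, k5, g2, g3, g4, g5]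

theorem sumE_eq (e : Ex) : e.gd = true → ∀ r : ℕ, sumE e r = Sg ((e.toL.map cd).map (scC r)) := by
  have vm : ∀ (L : List Tm) (r : ℕ), ∀ c ∈ (L.map cd).map (scC r), Vd c := by
    intro L r c hc
    obtain ⟨c', hc', rfl⟩ := List.mem_map.1 hc
    obtain ⟨t, -, rfl⟩ := List.mem_map.1 hc'
    exact Vd_scC r (Vd_cd t)
  induction e with
  | lst L =>
    intro _ r
    show lcd L (fun A => mp (scC r) A lsum) = _
    rw [lcd_eq, mp_eq, lsum_eq _ (vm L r)]
    rfl
  | app a b iha ihb =>
    intro h r
    obtain ⟨ha, hb⟩ := gd_app h
    show sumE a r + sumE b r = _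
    rw [iha ha, ihb hb, ← Sg_append, ← List.map_append, ← List.map_append]
    rfl
  | scl c a iha =>
    intro h r
    show sq (Nat.mod (Nat.mul r (rk c)) 13) (sumE a) = _
    rw [sq_eq, iha h]
    show Sg _ = Sg (((sclL c a.toL).map cd).map (scC r))
    unfold sclL
    rw [List.map_map, List.map_map, List.map_map]
    congr 1
    refine List.map_congr_left fun t _ => ?_
    show scC (r * rk c % 13) (cd t) = scC r (cd (c * t.1, t.2))
    rw [← scC_cd, scC_comp r _ _ (Vd_cd t)]
  | mul a b iha ihb =>
    intro h r
    obtain ⟨ha, hb⟩ := gd_mul h
    show cods a (fun A => mp (scC r) A fun A' => cods b fun B => psum A' B) = _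
    rw [cods_eq a ha, mp_eq, cods_eq b hb, psum_eq _ _ (fun y hy => by
      obtain ⟨t, -, rfl⟩ := List.mem_map.1 hy
      exact Vd_cd t)]
    congr 1
    show _ = ((mulL a.toL b.toL).map cd).map (scC r)
    rw [← mul_map (gd_spec a ha) (gd_spec b hb), List.map_flatMap, List.flatMap_map]
    refine List.flatMap_congr fun x hx => ?_
    have hv : Vd x := by
      obtain ⟨t, -, rfl⟩ := List.mem_map.1 hx
      exact Vd_cd t
    have e : ∀ B : List ℕ, B.map (comb (scC r x)) = (B.map (comb x)).map (scC r) := fun B => by
      rw [List.map_map]
      exact List.map_congr_left fun y _ => comb_scC r x y hv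
    exact e _

private theorem scC_one (c : ℕ) (h : Vd c) : scC 1 c = c := by
  obtain ⟨h1, -, -, -, -, h6⟩ := h.fields
  unfold scC
  have e : Nat.mod (Nat.mul 1 (fK c)) 13 = fK c := by
    show 1 * fK c % 13 = fK c
    rw [one_mul, Nat.mod_eq_of_lt h1]
  rw [e, h6]

theorem sumE_one (e : Ex) (h : e.gd = true) : sumE e 1 = Sg (e.toL.map cd) := by
  rw [sumE_eq e h 1]
  congr 1
  conv_rhs => rw [← List.map_id (List.map cd e.toL)]
  refine List.map_congr_left fun c hc => ?_
  obtain ⟨t, -, rfl⟩ := List.mem_map.1 hc
  exact scC_one _ (Vd_cd t)

/-! ### Digits -/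

/-- Binomials modulo thirteen. -/
def cf (n i : ℕ) : ℕ := n.choose i % 13

private theorem Gt_eq : ∀ g < 169, Gt g = ∑ i ∈ Finset.range 15, cf g i * X1 ^ i := by
  decide +kernel

private theorem Zt_eq : ∀ b < 169, Zt b = ∑ j ∈ Finset.range 15, cf b j * X15 ^ j := by
  decide +kernel

private theorem Mt_eq (m : ℕ) (h : m < 13) : 1 + m * X225 = ∑ k ∈ Finset.range 2, cf m k * X225 ^ k := by
  rw [Finset.sum_range_succ, Finset.sum_range_one]
  unfold cf
  rw [Nat.choose_zero_right, Nat.choose_one_right, Nat.mod_eq_of_lt h, pow_zero, pow_one]
  have e : (1 % 13 * 1 : ℕ) = 1 := rfl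
  rw [e]

private theorem lt_pow (b n : ℕ) (f : ℕ → ℕ) (hf : ∀ i < n, f i < b) :
    ∑ i ∈ Finset.range n, f i * b ^ i < b ^ n := by
  induction n with
  | zero => simp
  | succ n ih =>
    rw [Finset.sum_range_succ, pow_succ]
    have h1 := ih fun i hi => hf i (by omega)
    have h2 : (f n + 1) * b ^ n ≤ b * b ^ n := Nat.mul_le_mul_right _ (hf n (by omega))
    have h3 : (f n + 1) * b ^ n = f n * b ^ n + b ^ n := by ring
    have h4 : b * b ^ n = b ^ n * b := by ring
    omega

private theorem dig (b n : ℕ) (f : ℕ → ℕ) (hf : ∀ i < n, f i < b) (m : ℕ) (hm : m < n) :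
    (∑ i ∈ Finset.range n, f i * b ^ i) / b ^ m % b = f m := by
  have hb : 0 < b := by have := hf m hm; omega
  obtain ⟨k, rfl⟩ : ∃ k, n = m + (k + 1) := ⟨n - m - 1, by omega⟩
  rw [Finset.sum_range_add]
  have e : ∑ x ∈ Finset.range (k + 1), f (m + x) * b ^ (m + x) =
      b ^ m * (b * (∑ x ∈ Finset.range k, f (m + (x + 1)) * b ^ x) + f m) := by
    rw [Finset.sum_range_succ', mul_add, Finset.mul_sum, Finset.mul_sum, add_zero]
    congr 1
    · refine Finset.sum_congr rfl fun x _ => ?_
      rw [← add_assoc, pow_add, pow_add, pow_one]
      ring
    · ring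
  rw [e, Nat.add_mul_div_left _ _ (pow_pos hb m),
    Nat.div_eq_of_lt (lt_pow b m f fun i hi => hf i (by omega)), zero_add, Nat.mul_add_mod]
  exact Nat.mod_eq_of_lt (hf m hm)

private theorem swap (L : List ℕ) (n : ℕ) (F : ℕ → ℕ → ℕ) (c : ℕ → ℕ) :
    (L.map fun t => ∑ i ∈ Finset.range n, F t i * c i).sum =
      ∑ i ∈ Finset.range n, (L.map fun t => F t i).sum * c i := by
  induction L with
  | nil => simp
  | cons t L ih => simp only [List.map_cons, List.sum_cons, ih, add_mul, Finset.sum_add_distrib]

private noncomputable def PG (t : ℕ) : ℕ := ∑ i ∈ Finset.range 15, cf (fg t) i * X1 ^ i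
private noncomputable def PZ (t : ℕ) : ℕ := ∑ j ∈ Finset.range 15, cf (fb t) j * X15 ^ j
private noncomputable def PM (t : ℕ) : ℕ := ∑ k ∈ Finset.range 2, cf (fm t) k * X225 ^ k

private theorem val_eq {t : ℕ} (h : Vd t) : vc t = fK t * (PG t * (PM t * PZ t)) := by
  obtain ⟨h1, h2, h3, h4, h5, -⟩ := h.fields
  have e : vc t = fK t * (Gt (fg t) * ((1 + fm t * X225) * Zt (fb t))) := rfl
  rw [e, Gt_eq _ h4, Zt_eq _ h5, Mt_eq _ h3]
  rfl

private noncomputable def T4 (w k j i : ℕ) (t : ℕ) : ℕ :=
  if fw t = w then fK t * (cf (fg t) i * (cf (fm t) k * cf (fb t) j)) else 0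
private noncomputable def T3 (w k j : ℕ) (t : ℕ) : ℕ :=
  if fw t = w then fK t * (PG t * (cf (fm t) k * cf (fb t) j)) else 0
private noncomputable def T2 (w k : ℕ) (t : ℕ) : ℕ :=
  if fw t = w then fK t * (PG t * (cf (fm t) k * PZ t)) else 0
private noncomputable def T1 (w : ℕ) (t : ℕ) : ℕ :=
  if fw t = w then fK t * (PG t * (PM t * PZ t)) else 0

private theorem s3 (w k j : ℕ) (t : ℕ) :
    T3 w k j t = ∑ i ∈ Finset.range 15, T4 w k j i t * X1 ^ i := by
  unfold T3 T4 PG
  split_ifs
  · rw [Finset.sum_mul, Finset.mul_sum]
    exact Finset.sum_congr rfl fun i _ => by ring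
  · simp

private theorem s2 (w k : ℕ) (t : ℕ) :
    T2 w k t = ∑ j ∈ Finset.range 15, T3 w k j t * X15 ^ j := by
  unfold T2 T3 PZ
  split_ifs
  · rw [Finset.mul_sum, Finset.mul_sum, Finset.mul_sum]
    exact Finset.sum_congr rfl fun i _ => by ring
  · simp

private theorem s1 (w : ℕ) (t : ℕ) :
    T1 w t = ∑ k ∈ Finset.range 2, T2 w k t * X225 ^ k := by
  unfold T1 T2 PM
  split_ifs
  · rw [Finset.sum_mul, Finset.mul_sum, Finset.mul_sum]
    exact Finset.sum_congr rfl fun i _ => by ring
  · simp

private theorem s0 {t : ℕ} (h : Vd t) : vc t * X450 ^ fw t = ∑ w ∈ Finset.range 12, T1 w t * X450 ^ w := by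
  rw [val_eq h, ← ite_sum (fun w => fK t * (PG t * (PM t * PZ t)) * X450 ^ w) h.fields.2.1]
  refine Finset.sum_congr rfl fun w _ => ?_
  unfold T1
  split_ifs <;> simp

private theorem T4_le (w k j i : ℕ) {t : ℕ} (h : Vd t) : T4 w k j i t ≤ 20736 := by
  unfold T4
  split_ifs
  · have h1 : fK t ≤ 12 := by have := h.fields.1; omega
    have h2 : ∀ n i, cf n i ≤ 12 := fun n i => by
      have : cf n i < 13 := Nat.mod_lt _ (by norm_num)
      omega
    calc fK t * (cf (fg t) i * (cf (fm t) k * cf (fb t) j)) ≤ 12 * (12 * (12 * 12)) :=
          Nat.mul_le_mul h1 (Nat.mul_le_mul (h2 _ _) (Nat.mul_le_mul (h2 _ _) (h2 _ _)))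
      _ = 20736 := by norm_num
  · exact Nat.zero_le _

private theorem sum_le (L : List ℕ) (f : ℕ → ℕ) (c : ℕ) (h : ∀ t ∈ L, f t ≤ c) :
    (L.map f).sum ≤ L.length * c := by
  induction L with
  | nil => simp
  | cons t L ih =>
    rw [List.map_cons, List.sum_cons, List.length_cons, add_mul, one_mul]
    have := h t List.mem_cons_self
    have := ih fun s hs => h s (List.mem_cons_of_mem _ hs)
    omega

private theorem X15_pow : X1 ^ 15 = X15 := rfl
private theorem X225_pow : X15 ^ 15 = X225 := (pow_mul X1 15 15).symm
private theorem X450_pow : X225 ^ 2 = X450 := (pow_mul X1 225 2).symm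

private theorem dg_eq (L : List ℕ) (hV : ∀ c ∈ L, Vd c) (hL : L.length ≤ 131072) (w k j i : ℕ) (hw : w < 12)
    (hk : k < 2) (hj : j < 15) (hi : i < 15) : dg (Sg L) w k j i = (L.map fun t => T4 w k j i t).sum := by
  have b4 : ∀ w k j i, (L.map fun t => T4 w k j i t).sum < X1 := fun w k j i => by
    have h := sum_le L (fun t => T4 w k j i t) 20736 fun t ht => T4_le w k j i (hV t ht)
    unfold X1
    omega
  have b3 : ∀ w k j, (L.map fun t => T3 w k j t).sum < X15 := fun w k j => by
    have h := lt_pow X1 15 _ fun i _ => b4 w k j i
    rw [← swap, X15_pow] at h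
    simp only [← s3] at h
    exact h
  have b2 : ∀ w k, (L.map fun t => T2 w k t).sum < X225 := fun w k => by
    have h := lt_pow X15 15 _ fun j _ => b3 w k j
    rw [← swap, X225_pow] at h
    simp only [← s2] at h
    exact h
  have b1 : ∀ w, (L.map fun t => T1 w t).sum < X450 := fun w => by
    have h := lt_pow X225 2 _ fun k _ => b2 w k
    rw [← swap, X450_pow] at h
    simp only [← s1 w] at h
    exact h
  have e0 : Sg L = (L.map fun t => ∑ w ∈ Finset.range 12, T1 w t * X450 ^ w).sum := by
    unfold Sg
    congr 1
    exact List.map_congr_left fun t ht => s0 (hV t ht)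
  have d0 : Sg L / X450 ^ w % X450 = (L.map fun t => T1 w t).sum := by
    rw [e0, swap]
    exact dig X450 12 _ (fun w _ => b1 w) w (by omega)
  have d1 : (L.map fun t => T1 w t).sum / X225 ^ k % X225 = (L.map fun t => T2 w k t).sum := by
    simp only [s1 w]
    rw [swap]
    exact dig X225 2 _ (fun k _ => b2 w k) k hk
  have d2 : (L.map fun t => T2 w k t).sum / X15 ^ j % X15 = (L.map fun t => T3 w k j t).sum := by
    simp only [s2 w k]
    rw [swap]
    exact dig X15 15 _ (fun j _ => b3 w k j) j hj
  have d3 : (L.map fun t => T3 w k j t).sum / X1 ^ i % X1 = (L.map fun t => T4 w k j i t).sum := by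
    simp only [s3 w k j]
    rw [swap]
    exact dig X1 15 _ (fun i _ => b4 w k j i) i hi
  rw [← d3, ← d2, ← d1, ← d0]
  rfl

private theorem T4_cS (L : List Tm) (w : Fin 12) (k j i : ℕ) :
    (13 : ℤ) ∣ cS L w i k j - ((((L.map cd).map fun t => T4 w.val k j i t).sum : ℕ) : ℤ) := by
  induction L with
  | nil => simp [cS]
  | cons t L ih =>
    have e : cS (t :: L) w i k j = (if wE t = w then
      (t.1 : ℤ) * (((gE t).choose i * (mE t).choose k * (bE t).choose j : ℕ) : ℤ) else 0) +
        cS L w i k j := rfl
    rw [e, List.map_cons, List.map_cons, List.sum_cons, Nat.cast_add]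
    have h : (13 : ℤ) ∣ (if wE t = w then
      (t.1 : ℤ) * (((gE t).choose i * (mE t).choose k * (bE t).choose j : ℕ) : ℤ) else 0) -
        ((T4 w.val k j i (cd t) : ℕ) : ℤ) := by
      unfold T4
      rw [fw_cd, fK_cd, fg_cd, fm_cd, fb_cd]
      by_cases hw : wE t = w
      · rw [if_pos hw, if_pos (by rw [hw])]
        have hc : ∀ n i : ℕ, ((cf n i : ℕ) : ℤ) ≡ (n.choose i : ℤ) [ZMOD 13] := fun n i => by
          unfold cf
          push_cast
          exact Int.mod_modEq _ _
        have hk : ((rk t.1 : ℕ) : ℤ) ≡ t.1 [ZMOD 13] := by
          rw [rk_eq]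
          exact Int.mod_modEq _ _
        have h1 := hk.mul ((hc (gE t) i).mul ((hc (mE t) k).mul (hc (bE t) j)))
        have h2 := h1.dvd
        push_cast
        have e2 : t.1 * (((gE t).choose i : ℤ) * ((mE t).choose k : ℤ) * ((bE t).choose j : ℤ)) =
          t.1 * (((gE t).choose i : ℤ) * (((mE t).choose k : ℤ) * ((bE t).choose j : ℤ))) := by ring
        rw [e2]
        exact h2
      · rw [if_neg hw, if_neg (fun h => hw (Fin.ext h))]
        simp
    have e3 : ∀ a b c d : ℤ, a + b - (c + d) = (a - c) + (b - d) := fun a b c d => by ring
    rw [e3]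
    exact dvd_add h ih

private theorem M15_sub : ∀ t ∈ M15, t ∈ M15L ∧ t.2.1 < 2 ∧ t.2.2 < 15 ∧ t.1 < 15 := by
  decide +kernel

/-- The terms are good. -/
theorem fastE_gd (e : Ex) (want : Fin 12 → ℕ → ℕ → ℕ → ℤ) (h : fastE e want = true) : ∀ t ∈ e.toL, Gd t := by
  unfold fastE at h
  rw [Bool.and_eq_true, Bool.and_eq_true] at h
  exact gd_spec e h.1.1

/-- The fast check is correct. -/
theorem cS_fastE (e : Ex) (want : Fin 12 → ℕ → ℕ → ℕ → ℤ) (h : fastE e want = true) :
    ∀ w : Fin 12, ∀ t ∈ M15, (13 : ℤ) ∣ cS e.toL w t.1 t.2.1 t.2.2 - want w t.1 t.2.1 t.2.2 := by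
  intro w t ht
  unfold fastE at h
  rw [Bool.and_eq_true, Bool.and_eq_true, sq_eq] at h
  obtain ⟨⟨hgd, hcn⟩, h⟩ := h
  rw [sumE_one e hgd] at h
  have hcnt : e.toL.length ≤ 131072 := by
    rw [← cnt_eq]
    exact Nat.le_of_ble_eq_true hcn
  unfold chk at h
  rw [List.all_eq_true] at h
  have h3 := h w (by fin_cases w <;> simp)
  rw [List.all_eq_true] at h3
  obtain ⟨m1, m2, m3, m4⟩ := M15_sub t ht
  have h4 := Nat.eq_of_beq_eq_true (h3 t m1)
  have hV : ∀ c ∈ e.toL.map cd, Vd c := by
    intro c hc
    obtain ⟨s, -, rfl⟩ := List.mem_map.1 hc
    exact Vd_cd s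
  rw [dg_eq (e.toL.map cd) hV (by rwa [List.length_map]) _ _ _ _ w.isLt m2 m3 m4] at h4
  have h7 := T4_cS e.toL w t.2.1 t.2.2 t.1
  have h8 : ((((e.toL.map cd).map fun s => T4 w.val t.2.1 t.2.2 t.1 s).sum % 13 : ℕ) : ℤ) =
      want w t.1 t.2.1 t.2.2 % 13 := by
    rw [← rk_eq, ← h4]
    rfl
  have h9 : (13 : ℤ) ∣ ((((e.toL.map cd).map fun s => T4 w.val t.2.1 t.2.2 t.1 s).sum : ℕ) : ℤ) -
      want w t.1 t.2.1 t.2.2 := by
    generalize ((e.toL.map cd).map fun s => T4 w.val t.2.1 t.2.2 t.1 s).sum = S at h8 ⊢
    omega
  have e1 : cS e.toL w t.1 t.2.1 t.2.2 - want w t.1 t.2.1 t.2.2 =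
      (cS e.toL w t.1 t.2.1 t.2.2 - ((((e.toL.map cd).map fun s => T4 w.val t.2.1 t.2.2 t.1 s).sum : ℕ) : ℤ)) +
      (((((e.toL.map cd).map fun s => T4 w.val t.2.1 t.2.2 t.1 s).sum : ℕ) : ℤ) - want w t.1 t.2.1 t.2.2) := by
    ring
  rw [e1]
  exact dvd_add h7 h9

end Pool.Agent.Helper81.P13
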