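import Pool.Agent.Helper28.P13.Lists
import Pool.Agent.Helper81.P13.FastE

/-!
# Project P13: words and combinations of words as list expressions
-/

set_option autoImplicit false

namespace Pool.Agent.Helper81.P13

open Pool.Agent.Helper84.P13 Pool.Agent.Helper28.P13

/-- The rows of a word. -/
def wX : List ℕ → Fin 4 → Fin 4 → Ex
  | [] => fun i f => .lst (id4 i f)
  | [l] => fun i f => .lst (TM l i f)
  | l :: l' :: ls => fun i f =>
      .app (.app (.app (.mul (.lst (TM l i 0)) (wX (l' :: ls) 0 f)) (.mul (.lst (TM l i 1)) (wX (l' :: ls) 1 f)))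
        (.mul (.lst (TM l i 2)) (wX (l' :: ls) 2 f))) (.mul (.lst (TM l i 3)) (wX (l' :: ls) 3 f))

/-- The rows of a combination of words. -/
def cX : List (ℤ × List ℕ) → Fin 4 → Fin 4 → Ex
  | [] => fun _ _ => .lst []
  | t :: W => fun i f => .app (.scl t.1 (wX t.2 i f)) (cX W i f)

/-- The combination of the four relations with multipliers. -/
def rX (m : Fin 4 → List Tm) (f : Fin 4) : Ex :=
  .app (.app (.app (.mul (.lst (m 0)) (.lst (relM 0 f))) (.mul (.lst (m 1)) (.lst (relM 1 f))))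
    (.mul (.lst (m 2)) (.lst (relM 2 f)))) (.mul (.lst (m 3)) (.lst (relM 3 f)))

/-- A combination minus multiples of the relations. -/
def bX (W : List (ℤ × List ℕ)) (m : Fin 4 → List Tm) (i f : Fin 4) : Ex :=
  .app (cX W i f) (.scl (-1) (rX m f))

theorem wX_toL : ∀ (w : List ℕ) (i f : Fin 4), (wX w i f).toL = wL w i f
  | [], _, _ => rfl
  | [_], _, _ => rfl
  | l :: l' :: ls, i, f => by
    have e : (wX (l :: l' :: ls) i f).toL = ((mulL (TM l i 0) (wX (l' :: ls) 0 f).toL ++
      mulL (TM l i 1) (wX (l' :: ls) 1 f).toL) ++ mulL (TM l i 2) (wX (l' :: ls) 2 f).toL) ++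
      mulL (TM l i 3) (wX (l' :: ls) 3 f).toL := rfl
    rw [e, wX_toL (l' :: ls) 0 f, wX_toL (l' :: ls) 1 f, wX_toL (l' :: ls) 2 f, wX_toL (l' :: ls) 3 f]
    rfl

theorem cX_toL (W : List (ℤ × List ℕ)) (i f : Fin 4) : (cX W i f).toL = cL W i f := by
  induction W with
  | nil => rfl
  | cons t W ih =>
    have e : (cX (t :: W) i f).toL = sclL t.1 (wX t.2 i f).toL ++ (cX W i f).toL := rfl
    rw [e, ih, wX_toL]
    rfl

theorem rX_toL (m : Fin 4 → List Tm) (f : Fin 4) : (rX m f).toL = mR m f := rfl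

theorem bX_toL (W : List (ℤ × List ℕ)) (m : Fin 4 → List Tm) (i f : Fin 4) :
    (bX W m i f).toL = cL W i f ++ sclL (-1) (mR m f) := by
  have e : (bX W m i f).toL = (cX W i f).toL ++ sclL (-1) (mR m f) := rfl
  rw [e, cX_toL]

end Pool.Agent.Helper81.P13
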